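import Pool.Agent.helper96.LSZF.L7
import Pool.Agent.helper16.LSZ.Kron

/-!
# The permanent inequality when one factor has an acyclic graph (MP_2dd521_co)
-/

set_option autoImplicit false

open Finset BigOperators
open scoped ComplexOrder
open Pool.Agent.helper16.LSZ

namespace Pool.Agent.helper96.LSZF

section

variable {I : Type} [Fintype I] [DecidableEq I]

theorem unique_neighbour (G : SimpleGraph I) (hG : G.IsAcyclic) (T : Finset I) (v c0 c c' : I)
    (w1 : G.Walk c0 c) (h1 : ∀ z ∈ w1.support, z ∈ T.erase v) (w2 : G.Walk c0 c')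
    (h2 : ∀ z ∈ w2.support, z ∈ T.erase v) (a1 : G.Adj v c) (a2 : G.Adj v c') : c = c' := by
  by_contra hne
  let P : G.Path c c' := (w1.reverse.append w2).toPath
  have hP : v ∉ (P : G.Walk c c').support := by
    intro hv
    have h3 := SimpleGraph.Walk.support_toPath_subset (w1.reverse.append w2) hv
    rw [SimpleGraph.Walk.mem_support_append_iff, SimpleGraph.Walk.support_reverse, List.mem_reverse] at h3
    rcases h3 with h3 | h3
    · exact absurd (h1 v h3) (Finset.notMem_erase v T)
    · exact absurd (h2 v h3) (Finset.notMem_erase v T)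
  let Q : G.Path c c' := ⟨SimpleGraph.Walk.cons a1.symm (SimpleGraph.Walk.cons a2 SimpleGraph.Walk.nil), by
    rw [SimpleGraph.Walk.cons_isPath_iff, SimpleGraph.Walk.cons_isPath_iff]
    refine ⟨⟨SimpleGraph.Walk.IsPath.nil, ?_⟩, ?_⟩
    · simp [a2.ne]
    · simp [a1.ne', hne]⟩
  have hPQ : P = Q := hG.path_unique P Q
  apply hP
  rw [hPQ]
  show v ∈ (SimpleGraph.Walk.cons a1.symm (SimpleGraph.Walk.cons a2 SimpleGraph.Walk.nil)).support
  simp

variable {J : Type} [Fintype J] [DecidableEq J]

theorem forest_good (A : I → I → ℂ) (B : Matrix J J ℂ) (hB : B.PosSemidef)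
    (a : I → ℝ) (ha : ∀ i, A i i = (a i : ℂ)) (hd : ∀ i, 0 < a i)
    (t : I → I → ℝ) (ht : ∀ i j, A i j * A j i = (t i j : ℂ)) (ht0 : ∀ i j, 0 ≤ t i j)
    (G : SimpleGraph I) (hG : G.IsAcyclic)
    (hsupp : ∀ i j, i ≠ j → ¬ G.Adj i j → A i j = 0) :
    ∀ (n : ℕ) (T : Finset I) (v : I), T.card = n → v ∈ T → Good A B T v := by
  classical
  intro n
  induction n using Nat.strong_induction_on with
  | _ n ih =>
    intro T v hn hv
    by_cases hT : (T.erase v).Nonempty
    · obtain ⟨c0, hc0⟩ := hT
      set T2 := (T.erase v).filter (fun y => ∃ w : G.Walk c0 y, ∀ z ∈ w.support, z ∈ T.erase v) with hT2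
      set T1 := T \ T2 with hT1
      have hc0T2 : c0 ∈ T2 := by
        rw [hT2, Finset.mem_filter]
        refine ⟨hc0, SimpleGraph.Walk.nil, ?_⟩
        intro z hz
        rw [SimpleGraph.Walk.support_nil, List.mem_singleton] at hz
        rw [hz]
        exact hc0
      have hvT2 : v ∉ T2 := by
        rw [hT2, Finset.mem_filter]
        exact fun h => Finset.notMem_erase v T h.1
      have hsub : T2 ⊆ T := fun x hx => Finset.mem_of_mem_erase (Finset.mem_filter.1 hx).1
      have hext : ∀ x ∈ T2, ∀ y ∈ T.erase v, G.Adj x y → y ∈ T2 := by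
        intro x hx y hy hxy
        obtain ⟨-, w, hw⟩ := Finset.mem_filter.1 hx
        rw [hT2, Finset.mem_filter]
        refine ⟨hy, w.concat hxy, ?_⟩
        intro z hz
        rw [SimpleGraph.Walk.support_concat, List.mem_append, List.mem_singleton] at hz
        rcases hz with hz | hz
        · exact hw z hz
        · rw [hz]; exact hy
      have huniq : ∀ x ∈ T2, ∀ y ∈ T2, G.Adj v x → G.Adj v y → x = y := by
        intro x hx y hy hvx hvy
        obtain ⟨-, w1, hw1⟩ := Finset.mem_filter.1 hx
        obtain ⟨-, w2, hw2⟩ := Finset.mem_filter.1 hy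
        exact unique_neighbour G hG T v c0 x y w1 hw1 w2 hw2 hvx hvy
      obtain ⟨c, hcT2, hcadj⟩ : ∃ c ∈ T2, ∀ y ∈ T2, G.Adj v y → y = c := by
        by_cases hex : ∃ y ∈ T2, G.Adj v y
        · obtain ⟨y, hy, hvy⟩ := hex
          exact ⟨y, hy, fun z hz hvz => huniq z hz y hy hvz hvy⟩
        · exact ⟨c0, hc0T2, fun z hz hvz => absurd ⟨z, hz, hvz⟩ hex⟩
      have hdis : Disjoint T1 T2 := Finset.sdiff_disjoint
      have hunion : T1 ∪ T2 = T := Finset.sdiff_union_of_subset hsub
      have hvT1 : v ∈ T1 := Finset.mem_sdiff.2 ⟨hv, hvT2⟩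
      have h12 : ∀ i ∈ T1, ∀ j ∈ T2, ¬ (i = v ∧ j = c) → A i j = 0 := by
        intro i hi j hj hn
        have hij : i ≠ j := by
          rintro rfl
          exact Finset.disjoint_left.1 hdis hi hj
        apply hsupp i j hij
        intro hadj
        by_cases hiv : i = v
        · subst hiv
          exact hn ⟨rfl, hcadj j hj hadj⟩
        · have hi' : i ∈ T.erase v := Finset.mem_erase.2 ⟨hiv, (Finset.mem_sdiff.1 hi).1⟩
          exact (Finset.mem_sdiff.1 hi).2 (hext j hj i hi' hadj.symm)
      have h21 : ∀ i ∈ T2, ∀ j ∈ T1, ¬ (i = c ∧ j = v) → A i j = 0 := by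
        intro i hi j hj hn
        have hij : i ≠ j := by
          rintro rfl
          exact Finset.disjoint_left.1 hdis hj hi
        apply hsupp i j hij
        intro hadj
        by_cases hjv : j = v
        · subst hjv
          exact hn ⟨hcadj i hi hadj.symm, rfl⟩
        · have hj' : j ∈ T.erase v := Finset.mem_erase.2 ⟨hjv, (Finset.mem_sdiff.1 hj).1⟩
          exact (Finset.mem_sdiff.1 hj).2 (hext i hi j hj' hadj)
      have c1 : T1.card < n := by
        rw [← hn]
        apply Finset.card_lt_card
        rw [Finset.ssubset_iff_subset_ne]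
        refine ⟨Finset.sdiff_subset, fun h => ?_⟩
        have : c0 ∈ T1 := by rw [h]; exact hsub hc0T2
        exact Finset.disjoint_left.1 hdis this hc0T2
      have c2 : T2.card < n := by
        rw [← hn]
        apply Finset.card_lt_card
        rw [Finset.ssubset_iff_subset_ne]
        exact ⟨hsub, fun h => hvT2 (by rw [h]; exact hv)⟩
      have g1 := ih T1.card c1 T1 v rfl hvT1
      have g2 := ih T2.card c2 T2 c rfl hcT2
      have g := good_join A B hB T1 T2 v c g1 g2 (t v c) (ht0 v c) (ht v c) hdis h12 h21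
      rw [hunion] at g
      exact g
    · have hTv : T = {v} := by
        rw [Finset.not_nonempty_iff_eq_empty] at hT
        apply Finset.eq_singleton_iff_unique_mem.2
        refine ⟨hv, fun x hx => ?_⟩
        by_contra hne
        have : x ∈ T.erase v := Finset.mem_erase.2 ⟨hne, hx⟩
        rw [hT] at this
        exact absurd this (Finset.notMem_empty x)
      rw [hTv]
      exact good_single A B hB v (a v) (ha v) (hd v)

theorem GG_univ {K : Type} [Fintype K] [DecidableEq K] (M : Matrix K K ℂ) :
    GG M univ univ = M.permanent := by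
  rw [permanent_eq, GG_def]
  let e : {a // a ∈ (univ : Finset K)} ≃ K := Equiv.subtypeUnivEquiv (fun a => mem_univ a)
  refine Fintype.sum_equiv (Equiv.equivCongr e e) _ _ fun σ => ?_
  refine Fintype.prod_equiv e _ _ fun a => ?_
  simp [e, Equiv.equivCongr]

theorem GG_kr (A : Matrix I I ℂ) (B : Matrix J J ℂ) :
    GG (kr A B) univ univ = (Matrix.kronecker A B).permanent := by
  rw [← GG_univ]
  rfl

/-- positive diagonal -/
theorem lsz_pos (A : Matrix I I ℂ) (B : Matrix J J ℂ) (hB : B.PosSemidef)
    (hd : ∀ i, 0 < A i i) (ht : ∀ i j, i ≠ j → 0 ≤ A i j * A j i)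
    (G : SimpleGraph I) (hG : G.IsAcyclic) (hsupp : ∀ i j, i ≠ j → A i j ≠ 0 → G.Adj i j) :
    A.permanent ^ (Fintype.card J) * B.permanent ^ (Fintype.card I) ≤ (Matrix.kronecker A B).permanent := by
  classical
  have ha : ∀ i, A i i = (((A i i).re : ℝ) : ℂ) := by
    intro i
    apply Complex.ext
    · rfl
    · rw [Complex.ofReal_im]
      exact (Complex.pos_iff.1 (hd i)).2.symm
  have ha0 : ∀ i, 0 < (A i i).re := fun i => (Complex.pos_iff.1 (hd i)).1
  have htt : ∀ i j, 0 ≤ A i j * A j i := by
    intro i j
    by_cases hij : i = j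
    · subst hij
      exact mul_nonneg (hd i).le (hd i).le
    · exact ht i j hij
  have ht1 : ∀ i j, A i j * A j i = (((A i j * A j i).re : ℝ) : ℂ) := by
    intro i j
    apply Complex.ext
    · rfl
    · rw [Complex.ofReal_im]
      exact (Complex.nonneg_iff.1 (htt i j)).2.symm
  have ht0 : ∀ i j, 0 ≤ (A i j * A j i).re := fun i j => (Complex.nonneg_iff.1 (htt i j)).1
  have hs : ∀ i j, i ≠ j → ¬ G.Adj i j → A i j = 0 := by
    intro i j hij hadj
    by_contra hne
    exact hadj (hsupp i j hij hne)
  have hgood := forest_good A B hB (fun i => (A i i).re) ha ha0 (fun i j => (A i j * A j i).re) ht1 ht0 G hG hs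
  have hperB : B.permanent = (pr B univ : ℂ) := by rw [← GG_univ, GG_eq_pr B hB]
  have hBnn : 0 ≤ pr B univ := pr_nonneg B hB univ
  rcases isEmpty_or_nonempty I with hI | hI
  · have h1 : (univ : Finset I) = ∅ := Finset.univ_eq_empty
    have h2 : (univ : Finset (I × J)) = ∅ := Finset.univ_eq_empty
    rw [← GG_kr, ← GG_univ A, h1, h2, GG_empty, GG_empty, Fintype.card_eq_zero (α := I), pow_zero, one_pow,
      mul_one]
  · obtain ⟨v⟩ := hI
    have g := hgood _ univ v rfl (mem_univ v)
    have hIc : Fintype.card I ≠ 0 := @Fintype.card_ne_zero I _ ⟨v⟩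
    have hperA : A.permanent = (pr A univ : ℂ) := by rw [← GG_univ, g.r1]
    have hZe : ZT A B univ v ∅ ∅ = GG (kr A B) univ univ := by
      unfold ZT
      simp
    have hKnn : 0 ≤ GG (kr A B) univ univ := by
      rw [← hZe]
      exact g.psd.diag_nonneg
    have hperK : (Matrix.kronecker A B).permanent = (((GG (kr A B) univ univ).re : ℝ) : ℂ) := by
      rw [← GG_kr]
      apply Complex.ext
      · rfl
      · rw [Complex.ofReal_im]
        exact (Complex.nonneg_iff.1 hKnn).2.symm
    have hK0 := (Complex.nonneg_iff.1 hKnn).1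
    have goal : pr A univ ^ (Fintype.card J) * pr B univ ^ (Fintype.card I) ≤ (GG (kr A B) univ univ).re := by
      rcases eq_or_lt_of_le hBnn with hβ | hβ
      · rw [← hβ, zero_pow hIc, mul_zero]
        exact hK0
      · have h1 := g.inv hβ 0 1 Unit (fun _ => del) (Nat.zero_le _) zero_le_one (Fr_del B)
        have h2 := g.pos hβ 0 del (fun S hS => if_neg fun h => hS (by rw [h, Finset.card_empty]))
          (by rw [qf_V0_del]; exact hβ)
        have hZ : qf (ZT A B univ v) del = (GG (kr A B) univ univ).re := by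
          unfold qf
          rw [hf_del, hZe]
        rw [Fintype.sum_unique, Fintype.sum_unique, qf_V0_del, hZ, Nat.cast_zero, zero_mul, add_zero,
          sub_zero, Finset.card_univ] at h1
        rw [hZ] at h2
        have h3 := le_of_mul_le_mul_left h1 hβ
        rw [Real.log_div h2.ne' hβ.ne'] at h3
        have h4 : (Fintype.card J : ℝ) * Real.log (pr A univ) + (Fintype.card I : ℝ) * Real.log (pr B univ) ≤
            Real.log (GG (kr A B) univ univ).re := by linarith
        have h5 : Real.log (pr A univ ^ (Fintype.card J) * pr B univ ^ (Fintype.card I)) ≤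
            Real.log (GG (kr A B) univ univ).re := by
          rw [Real.log_mul (pow_pos g.p1 _).ne' (pow_pos hβ _).ne', Real.log_pow, Real.log_pow]
          exact h4
        exact (Real.log_le_log_iff (mul_pos (pow_pos g.p1 _) (pow_pos hβ _)) h2).1 h5
    rw [hperK, hperA, hperB]
    exact_mod_cast goal

omit [DecidableEq J] in
theorem cont_perm {K : Type} [Fintype K] [DecidableEq K] (F : ℝ → Matrix K K ℂ)
    (h : ∀ i j, Continuous fun x => F x i j) : Continuous fun x => (F x).permanent := by
  unfold Matrix.permanent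
  exact continuous_finsetSum _ fun σ _ => continuous_finsetProd _ fun i _ => h _ _

/-- The inequality for every `A` with an acyclic graph, nonnegative diagonal and nonnegative products
`A i j * A j i`. -/
theorem lsz_acyclic (A : Matrix I I ℂ) (B : Matrix J J ℂ) (hB : B.PosSemidef)
    (hd : ∀ i, 0 ≤ A i i) (ht : ∀ i j, i ≠ j → 0 ≤ A i j * A j i)
    (G : SimpleGraph I) (hG : G.IsAcyclic) (hsupp : ∀ i j, i ≠ j → A i j ≠ 0 → G.Adj i j) :
    A.permanent ^ (Fintype.card J) * B.permanent ^ (Fintype.card I) ≤ (Matrix.kronecker A B).permanent := by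
  classical
  set F : ℝ → Matrix I I ℂ := fun x => fun i j => A i j + (if i = j then (x : ℂ) else 0) with hF
  have hFc : ∀ i j, Continuous fun x => F x i j := by
    intro i j
    simp only [hF]
    by_cases hij : i = j
    · simp only [if_pos hij]
      exact continuous_const.add Complex.continuous_ofReal
    · simp only [if_neg hij]
      exact continuous_const
  have hF0 : F 0 = A := by
    ext i j
    simp only [hF]
    split_ifs <;> simp
  have hFne : ∀ x i j, i ≠ j → F x i j = A i j := by
    intro x i j hij
    simp only [hF, if_neg hij, add_zero]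
  have hpos : ∀ x : ℝ, 0 < x → (F x).permanent ^ (Fintype.card J) * B.permanent ^ (Fintype.card I) ≤
      (Matrix.kronecker (F x) B).permanent := by
    intro x hx
    apply lsz_pos (F x) B hB _ _ G hG
    · intro i j hij hne
      rw [hFne x i j hij] at hne
      exact hsupp i j hij hne
    · intro i
      simp only [hF, if_true]
      have h1 : (0 : ℂ) < (x : ℂ) := by exact_mod_cast hx
      exact add_pos_of_nonneg_of_pos (hd i) h1
    · intro i j hij
      rw [hFne x i j hij, hFne x j i hij.symm]
      exact ht i j hij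
  have c1 : Continuous fun x => (F x).permanent ^ (Fintype.card J) * B.permanent ^ (Fintype.card I) :=
    ((cont_perm F hFc).pow _).mul continuous_const
  have c2 : Continuous fun x => (Matrix.kronecker (F x) B).permanent := by
    apply cont_perm (fun x => Matrix.kronecker (F x) B)
    intro p q
    show Continuous fun x => F x p.1 q.1 * B p.2 q.2
    exact (hFc _ _).mul continuous_const
  have l1 := (c1.tendsto 0).comp tendsto_one_div_add_atTop_nhds_zero_nat
  have l2 := (c2.tendsto 0).comp tendsto_one_div_add_atTop_nhds_zero_nat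
  have h := le_of_tendsto_of_tendsto' l1 l2 (fun k => hpos (1 / ((k : ℝ) + 1)) (by positivity))
  rw [hF0] at h
  exact h

end

end Pool.Agent.helper96.LSZF
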