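import Pool.Agent.helper16.LSZ.Lap

/-!
# Laplace expansions of partial permanents (forest theorem, MP_2dd521_co)
-/

set_option autoImplicit false

open Finset BigOperators
open scoped ComplexOrder
open Pool.Agent.helper16.LSZ

namespace Pool.Agent.helper96.LSZF

section

variable {K : Type*} [Fintype K] [DecidableEq K]

theorem GG_def (M : K → K → ℂ) (S R : Finset K) :
    GG M S R = ∑ e : {a // a ∈ S} ≃ {a // a ∈ R}, ∏ a : {a // a ∈ S}, M a.1 (e a).1 :=
  GG_eq' M S R

theorem GG_card (M : K → K → ℂ) (S R : Finset K) (h : S.card ≠ R.card) : GG M S R = 0 := by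
  rw [GG_def]
  have : IsEmpty ({a // a ∈ S} ≃ {a // a ∈ R}) := by
    constructor
    intro e
    apply h
    have := Fintype.card_congr e
    simpa using this
  rw [Fintype.sum_empty]

theorem GG_row (M : K → K → ℂ) (S R : Finset K) (x : K) (hx : x ∈ S) (h : ∀ y ∈ R, M x y = 0) : GG M S R = 0 := by
  rw [GG_def]
  apply Finset.sum_eq_zero
  intro e _
  apply Finset.prod_eq_zero (mem_univ ⟨x, hx⟩)
  exact h _ (e ⟨x, hx⟩).2

theorem GG_tr (M : K → K → ℂ) (S R : Finset K) : GG M S R = GG (fun i j => M j i) R S := by
  rw [GG_def, GG_def]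
  refine Fintype.sum_equiv ⟨fun e => e.symm, fun e => e.symm, fun e => rfl, fun e => rfl⟩ _ _ fun e => ?_
  refine Fintype.prod_equiv e _ _ fun a => ?_
  simp

theorem GG_col (M : K → K → ℂ) (S R : Finset K) (y : K) (hy : y ∈ R) (h : ∀ x ∈ S, M x y = 0) : GG M S R = 0 := by
  rw [GG_tr]
  exact GG_row _ R S y hy h

theorem GG_empty (M : K → K → ℂ) : GG M ∅ ∅ = 1 := by
  rw [GG_def]
  have hE : IsEmpty {a : K // a ∈ (∅ : Finset K)} := ⟨fun a => Finset.notMem_empty a.1 a.2⟩
  have hs : Subsingleton ({a : K // a ∈ (∅ : Finset K)} ≃ {a : K // a ∈ (∅ : Finset K)}) :=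
    ⟨fun e e' => Equiv.ext fun a => (hE.false a).elim⟩
  rw [Fintype.sum_eq_single (Equiv.refl _) (fun e he => absurd (Subsingleton.elim e _) he)]
  simp

/-- Laplace expansion along a subset of the rows. -/
theorem GG_rows (M : K → K → ℂ) (S T R : Finset K) (h : Disjoint S T) :
    GG M (S ∪ T) R = ∑ C ∈ R.powerset, GG M S C * GG M T (R \ C) := by
  classical
  rw [GG_def]
  have h1 := laplace (ι := {a // a ∈ S ∪ T}) (κ := {a // a ∈ R}) (Q := Bool) (fun a => decide (a.1 ∈ S)) (fun a b => M a.1 b.1)
  refine Eq.trans (Finset.sum_congr (univ_inst _ _) fun _ _ => rfl) (Eq.trans h1 ?_)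
  have h3 : ∀ g : {a // a ∈ R} → Bool, ∏ q : Bool, pp (fun (a : {a // a ∈ S ∪ T}) (b : {a // a ∈ R}) => M a.1 b.1)
      (fun i => decide (i.1 ∈ S) = q) (fun k => g k = q) =
      GG M S ((univ.filter fun k => g k = true).map (Function.Embedding.subtype _)) *
      GG M T (R \ ((univ.filter fun k => g k = true).map (Function.Embedding.subtype _))) := by
    intro g
    rw [Fintype.prod_bool]
    congr 1
    · unfold GG
      refine pp_congr _ _ _ _ _ _ ?_ ?_ ?_
      · exact {
          toFun := fun x => ⟨x.1.1, by simpa using x.2⟩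
          invFun := fun x => ⟨⟨x.1, Finset.mem_union_left _ x.2⟩, by simpa using x.2⟩
          left_inv := fun x => by ext; rfl
          right_inv := fun x => by ext; rfl }
      · exact {
          toFun := fun x => ⟨x.1.1, by
            rw [Finset.mem_map]
            exact ⟨x.1, by simpa using x.2, rfl⟩⟩
          invFun := fun x => ⟨⟨x.1, by
            have := x.2
            rw [Finset.mem_map] at this
            obtain ⟨y, -, hy⟩ := this
            rw [← hy]; exact y.2⟩, by
            have := x.2
            rw [Finset.mem_map] at this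
            obtain ⟨y, hy1, hy⟩ := this
            rw [Finset.mem_filter] at hy1
            have : y = ⟨x.1, by rw [← hy]; exact y.2⟩ := Subtype.ext hy
            rw [← this]
            exact hy1.2⟩
          left_inv := fun x => by ext; rfl
          right_inv := fun x => by ext; rfl }
      · intro i k
        rfl
    · unfold GG
      refine pp_congr _ _ _ _ _ _ ?_ ?_ ?_
      · exact {
          toFun := fun x => ⟨x.1.1, by
            have h4 := x.1.2
            have h5 : x.1.1 ∉ S := by simpa using x.2
            rcases Finset.mem_union.1 h4 with h6 | h6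
            · exact absurd h6 h5
            · exact h6⟩
          invFun := fun x => ⟨⟨x.1, Finset.mem_union_right _ x.2⟩, by
            have : x.1 ∉ S := fun h' => (Finset.disjoint_left.1 h h') x.2
            simpa using this⟩
          left_inv := fun x => by ext; rfl
          right_inv := fun x => by ext; rfl }
      · exact {
          toFun := fun x => ⟨x.1.1, by
            rw [Finset.mem_sdiff]
            refine ⟨x.1.2, fun hm => ?_⟩
            rw [Finset.mem_map] at hm
            obtain ⟨y, hy1, hy⟩ := hm
            rw [Finset.mem_filter] at hy1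
            have h4 : y = x.1 := Subtype.ext hy
            rw [h4, x.2] at hy1
            exact absurd hy1.2 (by simp)⟩
          invFun := fun x => ⟨⟨x.1, (Finset.mem_sdiff.1 x.2).1⟩, by
            have h4 := (Finset.mem_sdiff.1 x.2).2
            by_contra hg
            apply h4
            rw [Finset.mem_map]
            refine ⟨⟨x.1, (Finset.mem_sdiff.1 x.2).1⟩, ?_, rfl⟩
            rw [Finset.mem_filter]
            exact ⟨mem_univ _, by simpa using hg⟩⟩
          left_inv := fun x => by ext; rfl
          right_inv := fun x => by ext; rfl }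
      · intro i k
        rfl
  rw [Finset.sum_congr rfl fun g _ => h3 g]
  refine Finset.sum_bij' (fun (g : {a // a ∈ R} → Bool) _ => (univ.filter fun k => g k = true).map (Function.Embedding.subtype _))
    (fun (C : Finset K) _ => fun k => decide (k.1 ∈ C)) ?_ ?_ ?_ ?_ ?_
  · intro g _
    rw [Finset.mem_powerset]
    intro x hx
    rw [Finset.mem_map] at hx
    obtain ⟨y, -, hy⟩ := hx
    rw [← hy]
    exact y.2
  · intro C _
    exact mem_univ _
  · intro g _
    funext k
    by_cases hk : g k = true
    · rw [hk, decide_eq_true_iff, Finset.mem_map]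
      exact ⟨k, by simpa using hk, rfl⟩
    · have hk' : g k = false := by simpa using hk
      rw [hk', decide_eq_false_iff_not, Finset.mem_map]
      rintro ⟨y, hy1, hy⟩
      have : y = k := Subtype.ext hy
      rw [this, Finset.mem_filter] at hy1
      exact hk hy1.2
  · intro C hC
    rw [Finset.mem_powerset] at hC
    ext x
    rw [Finset.mem_map]
    constructor
    · rintro ⟨y, hy1, hy⟩
      rw [Finset.mem_filter] at hy1
      rw [← hy]
      simpa using hy1.2
    · intro hx
      exact ⟨⟨x, hC hx⟩, by simpa using hx, rfl⟩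
  · intro g _
    rfl

/-- Laplace expansion along a subset of the columns. -/
theorem GG_cols (M : K → K → ℂ) (S R T : Finset K) (h : Disjoint R T) :
    GG M S (R ∪ T) = ∑ C ∈ S.powerset, GG M C R * GG M (S \ C) T := by
  rw [GG_tr, GG_rows _ R T S h]
  refine Finset.sum_congr rfl fun C _ => ?_
  rw [GG_tr M C R, GG_tr M (S \ C) T]

end

end Pool.Agent.helper96.LSZF
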