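import Pool.Agent.helper96.LSZF.L1

/-!
# Two blocks joined by one vertex pair (forest theorem, MP_2dd521_co)
-/

set_option autoImplicit false

open Finset BigOperators
open scoped ComplexOrder
open Pool.Agent.helper16.LSZ

namespace Pool.Agent.helper96.LSZF

section

variable {K : Type*} [Fintype K] [DecidableEq K]

/-- sums over the subsets of a disjoint union -/
theorem sum_powerset_union (Q R : Finset K) (h : Disjoint Q R) (F : Finset K → ℂ) :
    ∑ D ∈ (Q ∪ R).powerset, F D = ∑ W ∈ Q.powerset, ∑ W' ∈ R.powerset, F (W' ∪ (Q \ W)) := by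
  rw [← Finset.sum_product']
  symm
  refine Finset.sum_bij' (fun p _ => p.2 ∪ (Q \ p.1)) (fun D _ => (Q \ D, R ∩ D)) ?_ ?_ ?_ ?_ ?_
  · rintro ⟨W, W'⟩ hp
    rw [Finset.mem_product, Finset.mem_powerset, Finset.mem_powerset] at hp
    rw [Finset.mem_powerset]
    intro x hx
    rcases Finset.mem_union.1 hx with h1 | h1
    · exact Finset.mem_union_right _ (hp.2 h1)
    · exact Finset.mem_union_left _ (Finset.mem_sdiff.1 h1).1
  · intro D _
    rw [Finset.mem_product, Finset.mem_powerset, Finset.mem_powerset]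
    exact ⟨Finset.sdiff_subset, Finset.inter_subset_left⟩
  · rintro ⟨W, W'⟩ hp
    rw [Finset.mem_product, Finset.mem_powerset, Finset.mem_powerset] at hp
    have hd := Finset.disjoint_left.1 h
    refine Prod.ext ?_ ?_
    · ext x
      simp only [Finset.mem_sdiff, Finset.mem_union, not_or, not_and, not_not]
      constructor
      · rintro ⟨h1, h2, h3⟩
        exact h3 h1
      · intro h1
        exact ⟨hp.1 h1, fun h2 => hd (hp.1 h1) (hp.2 h2), fun _ => h1⟩
    · ext x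
      simp only [Finset.mem_inter, Finset.mem_sdiff, Finset.mem_union]
      constructor
      · rintro ⟨h1, h2 | h2⟩
        · exact h2
        · exact absurd h1 (hd h2.1)
      · intro h1
        exact ⟨hp.2 h1, Or.inl h1⟩
  · intro D hD
    rw [Finset.mem_powerset] at hD
    ext x
    simp only [Finset.mem_inter, Finset.mem_sdiff, Finset.mem_union, not_and, not_not]
    constructor
    · rintro (h1 | h1)
      · exact h1.2
      · exact h1.2 h1.1
    · intro h1
      rcases Finset.mem_union.1 (hD h1) with h2 | h2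
      · exact Or.inr ⟨h2, fun _ => h1⟩
      · exact Or.inl ⟨h2, h1⟩
  · rintro ⟨W, W'⟩ _
    rfl

theorem two_blocks (M : K → K → ℂ) (P1 P2 Q1 Q2 V C : Finset K) (hP : Disjoint P1 P2) (hQ : Disjoint Q1 Q2)
    (h12 : ∀ x ∈ P1, ∀ y ∈ Q2, ¬ (x ∈ V ∧ y ∈ C) → M x y = 0)
    (h21 : ∀ x ∈ P2, ∀ y ∈ Q1, ¬ (x ∈ C ∧ y ∈ V) → M x y = 0) :
    GG M (P1 ∪ P2) (Q1 ∪ Q2) = ∑ W ∈ (Q1 ∩ V).powerset, ∑ W' ∈ (Q2 ∩ C).powerset,
      (∑ U ∈ (P1 ∩ V).powerset, GG M U W' * GG M (P1 \ U) (Q1 \ W)) *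
      (∑ U' ∈ (P2 ∩ C).powerset, GG M U' W * GG M (P2 \ U') (Q2 \ W')) := by
  have hQd := Finset.disjoint_left.1 hQ
  rw [GG_rows M P1 P2 _ hP, sum_powerset_union Q1 Q2 hQ]
  -- the two factors
  have hfac : ∀ W ∈ Q1.powerset, ∀ W' ∈ Q2.powerset,
      GG M P1 (W' ∪ (Q1 \ W)) * GG M P2 ((Q1 ∪ Q2) \ (W' ∪ (Q1 \ W))) =
      (∑ U ∈ P1.powerset, GG M U W' * GG M (P1 \ U) (Q1 \ W)) *
      (∑ U' ∈ P2.powerset, GG M U' W * GG M (P2 \ U') (Q2 \ W')) := by
    intro W hW W' hW'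
    rw [Finset.mem_powerset] at hW hW'
    have e : (Q1 ∪ Q2) \ (W' ∪ (Q1 \ W)) = W ∪ (Q2 \ W') := by
      ext x
      simp only [Finset.mem_sdiff, Finset.mem_union, not_or, not_and, not_not]
      constructor
      · rintro ⟨h1 | h1, h2, h3⟩
        · exact Or.inl (h3 h1)
        · exact Or.inr ⟨h1, h2⟩
      · rintro (h1 | h1)
        · exact ⟨Or.inl (hW h1), fun h2 => hQd (hW h1) (hW' h2), fun _ => h1⟩
        · exact ⟨Or.inr h1.1, h1.2, fun h2 => absurd h1.1 (hQd h2)⟩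
    rw [e, GG_cols M P1 W' (Q1 \ W), GG_cols M P2 W (Q2 \ W')]
    · rw [Finset.disjoint_left]
      intro x hx hx'
      exact hQd (hW hx) (Finset.mem_sdiff.1 hx').1
    · rw [Finset.disjoint_left]
      intro x hx hx'
      exact hQd (Finset.mem_sdiff.1 hx').1 (hW' hx)
  rw [Finset.sum_congr rfl fun W hW => Finset.sum_congr rfl fun W' hW' => hfac W hW W' hW']
  -- vanishing
  have va : ∀ U ∈ P1.powerset, ∀ W' ∈ Q2.powerset, ¬ (U ⊆ V ∧ W' ⊆ C) → GG M U W' = 0 := by
    intro U hU W' hW' hn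
    rw [Finset.mem_powerset] at hU hW'
    by_cases hUV : U ⊆ V
    · have hWC : ¬ W' ⊆ C := fun h => hn ⟨hUV, h⟩
      obtain ⟨y, hy, hyC⟩ := Finset.not_subset.1 hWC
      exact GG_col M U W' y hy fun x hx => h12 x (hU hx) y (hW' hy) fun h => hyC h.2
    · obtain ⟨x, hx, hxV⟩ := Finset.not_subset.1 hUV
      exact GG_row M U W' x hx fun y hy => h12 x (hU hx) y (hW' hy) fun h => hxV h.1
  have vb : ∀ U' ∈ P2.powerset, ∀ W ∈ Q1.powerset, ¬ (U' ⊆ C ∧ W ⊆ V) → GG M U' W = 0 := by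
    intro U hU W' hW' hn
    rw [Finset.mem_powerset] at hU hW'
    by_cases hUV : U ⊆ C
    · have hWC : ¬ W' ⊆ V := fun h => hn ⟨hUV, h⟩
      obtain ⟨y, hy, hyC⟩ := Finset.not_subset.1 hWC
      exact GG_col M U W' y hy fun x hx => h21 x (hU hx) y (hW' hy) fun h => hyC h.2
    · obtain ⟨x, hx, hxV⟩ := Finset.not_subset.1 hUV
      exact GG_row M U W' x hx fun y hy => h21 x (hU hx) y (hW' hy) fun h => hxV h.1
  symm
  refine Eq.trans (Finset.sum_subset (Finset.powerset_mono.2 Finset.inter_subset_left) fun W hW hW2 => ?_) ?_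
  · apply Finset.sum_eq_zero
    intro W' _
    have : ∀ U' ∈ (P2 ∩ C).powerset, GG M U' W * GG M (P2 \ U') (Q2 \ W') = 0 := by
      intro U' hU'
      rw [vb U' (Finset.powerset_mono.2 Finset.inter_subset_left hU') W hW, zero_mul]
      rintro ⟨-, h⟩
      apply hW2
      rw [Finset.mem_powerset] at hW ⊢
      exact Finset.subset_inter hW h
    rw [Finset.sum_eq_zero this, mul_zero]
  · refine Finset.sum_congr rfl fun W hW => ?_
    refine Eq.trans (Finset.sum_subset (Finset.powerset_mono.2 Finset.inter_subset_left) fun W' hW' hW2 => ?_) ?_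
    · have : ∀ U ∈ (P1 ∩ V).powerset, GG M U W' * GG M (P1 \ U) (Q1 \ W) = 0 := by
        intro U hU
        rw [va U (Finset.powerset_mono.2 Finset.inter_subset_left hU) W' hW', zero_mul]
        rintro ⟨-, h⟩
        apply hW2
        rw [Finset.mem_powerset] at hW' ⊢
        exact Finset.subset_inter hW' h
      rw [Finset.sum_eq_zero this, zero_mul]
    · refine Finset.sum_congr rfl fun W' hW' => ?_
      congr 1
      · refine Finset.sum_subset (Finset.powerset_mono.2 Finset.inter_subset_left) fun U hU hU2 => ?_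
        rw [va U hU W' hW', zero_mul]
        rintro ⟨h, -⟩
        apply hU2
        rw [Finset.mem_powerset] at hU ⊢
        exact Finset.subset_inter hU h
      · refine Finset.sum_subset (Finset.powerset_mono.2 Finset.inter_subset_left) fun U hU hU2 => ?_
        rw [vb U hU W hW, zero_mul]
        rintro ⟨h, -⟩
        apply hU2
        rw [Finset.mem_powerset] at hU ⊢
        exact Finset.subset_inter hU h

end

section

variable {I J : Type*} [Fintype I] [Fintype J] [DecidableEq I] [DecidableEq J]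

/-- the Kronecker product as a function -/
def kr (A : I → I → ℂ) (B : J → J → ℂ) : I × J → I × J → ℂ := fun x y => A x.1 y.1 * B x.2 y.2

theorem GG_block (A : I → I → ℂ) (B : J → J → ℂ) (u u' : I) (U W : Finset J) :
    GG (kr A B) ({u} ×ˢ U) ({u'} ×ˢ W) = A u u' ^ U.card * GG B U W := by
  classical
  have h1 : GG (kr A B) ({u} ×ˢ U) ({u'} ×ˢ W) = GG (fun a b => A u u' * B a b) U W := by
    unfold GG
    refine pp_congr _ _ _ _ _ _ ?_ ?_ ?_
    · exact {
        toFun := fun x => ⟨x.1.2, (Finset.mem_product.1 x.2).2⟩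
        invFun := fun a => ⟨(u, a.1), by rw [Finset.mem_product]; exact ⟨Finset.mem_singleton_self u, a.2⟩⟩
        left_inv := fun x => by
          obtain ⟨⟨i, a⟩, h⟩ := x
          have := Finset.mem_singleton.1 (Finset.mem_product.1 h).1
          simp only at this
          subst this
          rfl
        right_inv := fun a => rfl }
    · exact {
        toFun := fun x => ⟨x.1.2, (Finset.mem_product.1 x.2).2⟩
        invFun := fun a => ⟨(u', a.1), by rw [Finset.mem_product]; exact ⟨Finset.mem_singleton_self u', a.2⟩⟩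
        left_inv := fun x => by
          obtain ⟨⟨i, a⟩, h⟩ := x
          have := Finset.mem_singleton.1 (Finset.mem_product.1 h).1
          simp only at this
          subst this
          rfl
        right_inv := fun a => rfl }
    · intro i k
      have h2 := Finset.mem_singleton.1 (Finset.mem_product.1 i.2).1
      have h3 := Finset.mem_singleton.1 (Finset.mem_product.1 k.2).1
      show A i.1.1 k.1.1 * B i.1.2 k.1.2 = A u u' * B i.1.2 k.1.2
      rw [h2, h3]
  rw [h1, GG_def, GG_def, Finset.mul_sum]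
  refine Finset.sum_congr rfl fun e _ => ?_
  rw [Finset.prod_mul_distrib]
  simp

theorem sum_powerset_block (v : I) (X : Finset J) (F : Finset (I × J) → ℂ) :
    ∑ D ∈ (({v} : Finset I) ×ˢ X).powerset, F D = ∑ U ∈ X.powerset, F ({v} ×ˢ U) := by
  classical
  symm
  refine Finset.sum_bij' (fun U _ => {v} ×ˢ U) (fun D _ => D.image Prod.snd) ?_ ?_ ?_ ?_ ?_
  · intro U hU
    rw [Finset.mem_powerset] at hU ⊢
    exact Finset.product_subset_product_right hU
  · intro D hD
    rw [Finset.mem_powerset] at hD ⊢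
    intro a ha
    obtain ⟨x, hx, rfl⟩ := Finset.mem_image.1 ha
    exact (Finset.mem_product.1 (hD hx)).2
  · intro U _
    ext a
    simp
  · intro D hD
    rw [Finset.mem_powerset] at hD
    ext ⟨i, a⟩
    rw [Finset.mem_product, Finset.mem_image, Finset.mem_singleton]
    constructor
    · rintro ⟨rfl, ⟨i', a'⟩, hx, rfl⟩
      have := Finset.mem_singleton.1 (Finset.mem_product.1 (hD hx)).1
      simp only at this
      subst this
      exact hx
    · intro hx
      exact ⟨Finset.mem_singleton.1 (Finset.mem_product.1 (hD hx)).1, (i, a), hx, rfl⟩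
  · intro U _
    rfl

/-- the kernel of a rooted piece `(T, v)` -/
noncomputable def ZT (A : I → I → ℂ) (B : J → J → ℂ) (T : Finset I) (v : I) (S R : Finset J) : ℂ :=
  GG (kr A B) ((T ×ˢ univ) \ ({v} ×ˢ S)) ((T ×ˢ univ) \ ({v} ×ˢ R))

/-- attaching a message -/
noncomputable def Dz (H Z : Finset J → Finset J → ℂ) (S R : Finset J) : ℂ :=
  ∑ U ∈ Sᶜ.powerset, ∑ W ∈ Rᶜ.powerset, H U W * Z (S ∪ U) (R ∪ W)

theorem ZT_single (A : I → I → ℂ) (B : J → J → ℂ) (v : I) (S R : Finset J) :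
    ZT A B {v} v S R = A v v ^ Sᶜ.card * GG B Sᶜ Rᶜ := by
  have h : ∀ S : Finset J, (({v} : Finset I) ×ˢ (univ : Finset J)) \ ({v} ×ˢ S) = {v} ×ˢ Sᶜ := by
    intro S
    ext ⟨i, a⟩
    simp only [Finset.mem_sdiff, Finset.mem_product, Finset.mem_singleton, Finset.mem_univ, and_true, not_and, Finset.mem_compl]
    constructor
    · rintro ⟨h1, h2⟩
      exact ⟨h1, h2 h1⟩
    · rintro ⟨h1, h2⟩
      exact ⟨h1, fun _ => h2⟩
  unfold ZT
  rw [h, h, GG_block]

theorem ZT_join (A : I → I → ℂ) (B : J → J → ℂ) (T1 T2 : Finset I) (v c : I) (hv : v ∈ T1) (hc : c ∈ T2)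
    (hT : Disjoint T1 T2) (h12 : ∀ i ∈ T1, ∀ j ∈ T2, ¬ (i = v ∧ j = c) → A i j = 0)
    (h21 : ∀ i ∈ T2, ∀ j ∈ T1, ¬ (i = c ∧ j = v) → A i j = 0) (S R : Finset J) :
    ZT A B (T1 ∪ T2) v S R =
      Dz (fun U W => ∑ W' : Finset J, ∑ U' : Finset J, A v c ^ U.card * GG B U W' * (A c v ^ U'.card * GG B U' W * ZT A B T2 c U' W'))
        (ZT A B T1 v) S R := by
  classical
  have hTd := Finset.disjoint_left.1 hT
  have hset : ∀ S : Finset J, ((T1 ∪ T2) ×ˢ (univ : Finset J)) \ ({v} ×ˢ S) =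
      ((T1 ×ˢ (univ : Finset J)) \ ({v} ×ˢ S)) ∪ (T2 ×ˢ (univ : Finset J)) := by
    intro S
    ext ⟨i, a⟩
    simp only [Finset.mem_sdiff, Finset.mem_product, Finset.mem_singleton, Finset.mem_univ, and_true, not_and, Finset.mem_union]
    constructor
    · rintro ⟨h1 | h1, h2⟩
      · exact Or.inl ⟨h1, h2⟩
      · exact Or.inr h1
    · rintro (h1 | h1)
      · exact ⟨Or.inl h1.1, h1.2⟩
      · refine ⟨Or.inr h1, fun h2 => ?_⟩
        subst h2
        exact absurd h1 (hTd hv)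
  unfold ZT
  rw [hset S, hset R]
  have hd : ∀ S : Finset J, Disjoint ((T1 ×ˢ (univ : Finset J)) \ ({v} ×ˢ S)) (T2 ×ˢ (univ : Finset J)) := by
    intro S
    rw [Finset.disjoint_left]
    rintro ⟨i, a⟩ h1 h2
    exact hTd (Finset.mem_product.1 (Finset.mem_sdiff.1 h1).1).1 (Finset.mem_product.1 h2).1
  rw [two_blocks (kr A B) _ _ _ _ ({v} ×ˢ (univ : Finset J)) ({c} ×ˢ (univ : Finset J)) (hd S) (hd R)]
  rotate_left
  · rintro ⟨i, a⟩ hx ⟨j, b⟩ hy hn
    have hi := (Finset.mem_product.1 (Finset.mem_sdiff.1 hx).1).1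
    have hj := (Finset.mem_product.1 hy).1
    show A i j * B a b = 0
    rw [h12 i hi j hj, zero_mul]
    rintro ⟨rfl, rfl⟩
    apply hn
    simp
  · rintro ⟨i, a⟩ hx ⟨j, b⟩ hy hn
    have hi := (Finset.mem_product.1 hx).1
    have hj := (Finset.mem_product.1 (Finset.mem_sdiff.1 hy).1).1
    show A i j * B a b = 0
    rw [h21 i hi j hj, zero_mul]
    rintro ⟨rfl, rfl⟩
    apply hn
    simp
  have e1 : ∀ S : Finset J, ((T1 ×ˢ (univ : Finset J)) \ ({v} ×ˢ S)) ∩ ({v} ×ˢ (univ : Finset J)) = {v} ×ˢ Sᶜ := by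
    intro S
    ext ⟨i, a⟩
    simp only [Finset.mem_sdiff, Finset.mem_product, Finset.mem_singleton, Finset.mem_univ, and_true, not_and, Finset.mem_inter, Finset.mem_compl]
    constructor
    · rintro ⟨⟨h1, h2⟩, h3⟩
      exact ⟨h3, h2 h3⟩
    · rintro ⟨h1, h2⟩
      subst h1
      exact ⟨⟨hv, fun _ => h2⟩, rfl⟩
  have e2 : (T2 ×ˢ (univ : Finset J)) ∩ ({c} ×ˢ (univ : Finset J)) = {c} ×ˢ (univ : Finset J) := by
    ext ⟨i, a⟩
    simp only [Finset.mem_product, Finset.mem_singleton, Finset.mem_univ, and_true, Finset.mem_inter]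
    constructor
    · rintro ⟨h1, h2⟩
      exact h2
    · rintro rfl
      exact ⟨hc, rfl⟩
  have e3 : ∀ S U : Finset J, ((T1 ×ˢ (univ : Finset J)) \ ({v} ×ˢ S)) \ ({v} ×ˢ U) = (T1 ×ˢ (univ : Finset J)) \ ({v} ×ˢ (S ∪ U)) := by
    intro S U
    ext ⟨i, a⟩
    simp only [Finset.mem_sdiff, Finset.mem_product, Finset.mem_singleton, Finset.mem_univ, and_true, not_and, Finset.mem_union, not_or]
    constructor
    · rintro ⟨⟨h1, h2⟩, h3⟩
      exact ⟨h1, fun h => ⟨h2 h, h3 h⟩⟩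
    · rintro ⟨h1, h2⟩
      exact ⟨⟨h1, fun h => (h2 h).1⟩, fun h => (h2 h).2⟩
  rw [e1, e1, e2]
  unfold Dz
  simp_rw [sum_powerset_block, GG_block, e3]
  rw [Finset.powerset_univ]
  -- reorder
  have step : ∀ W ∈ Rᶜ.powerset,
      ∑ W' : Finset J, (∑ U ∈ Sᶜ.powerset, A v c ^ U.card * GG B U W' *
        GG (kr A B) ((T1 ×ˢ (univ : Finset J)) \ ({v} ×ˢ (S ∪ U))) ((T1 ×ˢ (univ : Finset J)) \ ({v} ×ˢ (R ∪ W)))) *
        (∑ U' : Finset J, A c v ^ U'.card * GG B U' W * GG (kr A B) ((T2 ×ˢ (univ : Finset J)) \ ({c} ×ˢ U')) ((T2 ×ˢ (univ : Finset J)) \ ({c} ×ˢ W'))) =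
      ∑ U ∈ Sᶜ.powerset, (∑ W' : Finset J, ∑ U' : Finset J, A v c ^ U.card * GG B U W' *
        (A c v ^ U'.card * GG B U' W * GG (kr A B) ((T2 ×ˢ (univ : Finset J)) \ ({c} ×ˢ U')) ((T2 ×ˢ (univ : Finset J)) \ ({c} ×ˢ W')))) *
        GG (kr A B) ((T1 ×ˢ (univ : Finset J)) \ ({v} ×ˢ (S ∪ U))) ((T1 ×ˢ (univ : Finset J)) \ ({v} ×ˢ (R ∪ W))) := by
    intro W _
    simp_rw [Finset.sum_mul]
    rw [Finset.sum_comm]
    refine Finset.sum_congr rfl fun U _ => ?_
    refine Finset.sum_congr rfl fun W' _ => ?_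
    rw [Finset.mul_sum]
    refine Finset.sum_congr rfl fun U' _ => ?_
    ring
  rw [Finset.sum_congr rfl step, Finset.sum_comm]

end

end Pool.Agent.helper96.LSZF
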