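import Pool.Agent.helper96.LSZF.L2
import Pool.Agent.helper16.LSZ.Ineq

/-!
# Convolutions, frames, quadratic forms (forest theorem, MP_2dd521_co)
-/

set_option autoImplicit false

open Finset BigOperators
open scoped ComplexOrder
open Pool.Agent.helper16.LSZ

namespace Pool.Agent.helper96.LSZF

section

variable {J : Type*} [Fintype J] [DecidableEq J]

/-- convolution -/
noncomputable def cv (f g : Finset J → ℂ) (S : Finset J) : ℂ := ∑ U ∈ S.powerset, f (S \ U) * g U

/-- hermitian form -/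
noncomputable def hf (Z : Finset J → Finset J → ℂ) (f : Finset J → ℂ) : ℂ :=
  ∑ S, ∑ R, f S * Z S R * star (f R)

omit [Fintype J] in
theorem cv_comm (f g : Finset J → ℂ) : cv f g = cv g f := by
  funext S
  unfold cv
  refine Finset.sum_bij' (fun U _ => S \ U) (fun U _ => S \ U) ?_ ?_ ?_ ?_ ?_
  · intro U _
    exact Finset.mem_powerset.2 Finset.sdiff_subset
  · intro U _
    exact Finset.mem_powerset.2 Finset.sdiff_subset
  · intro U hU
    rw [Finset.mem_powerset] at hU
    exact Finset.sdiff_sdiff_eq_self hU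
  · intro U hU
    rw [Finset.mem_powerset] at hU
    exact Finset.sdiff_sdiff_eq_self hU
  · intro U hU
    rw [Finset.mem_powerset] at hU
    rw [Finset.sdiff_sdiff_eq_self hU, mul_comm]

theorem sum_cv (f g F : Finset J → ℂ) :
    ∑ S, ∑ U ∈ Sᶜ.powerset, f S * g U * F (S ∪ U) = ∑ S, cv f g S * F S := by
  unfold cv
  simp_rw [Finset.sum_mul]
  rw [Finset.sum_sigma', Finset.sum_sigma']
  refine Finset.sum_bij' (fun p _ => ⟨p.1 ∪ p.2, p.2⟩) (fun p _ => ⟨p.1 \ p.2, p.2⟩) ?_ ?_ ?_ ?_ ?_
  · rintro ⟨S, U⟩ _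
    rw [Finset.mem_sigma]
    exact ⟨mem_univ _, Finset.mem_powerset.2 Finset.subset_union_right⟩
  · rintro ⟨S, U⟩ h
    rw [Finset.mem_sigma] at h ⊢
    refine ⟨mem_univ _, Finset.mem_powerset.2 ?_⟩
    intro x hx
    rw [Finset.mem_compl, Finset.mem_sdiff, not_and, not_not]
    exact fun _ => hx
  · rintro ⟨S, U⟩ h
    rw [Finset.mem_sigma] at h
    have hd : Disjoint S U := by
      rw [Finset.disjoint_right]
      intro x hx
      exact Finset.mem_compl.1 (Finset.mem_powerset.1 h.2 hx)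
    show (⟨(S ∪ U) \ U, U⟩ : (_ : Finset J) × Finset J) = ⟨S, U⟩
    rw [Finset.union_sdiff_cancel_right hd]
  · rintro ⟨S, U⟩ h
    rw [Finset.mem_sigma] at h
    show (⟨(S \ U) ∪ U, U⟩ : (_ : Finset J) × Finset J) = ⟨S, U⟩
    rw [Finset.sdiff_union_of_subset (Finset.mem_powerset.1 h.2)]
  · rintro ⟨S, U⟩ h
    rw [Finset.mem_sigma] at h
    have hd : Disjoint S U := by
      rw [Finset.disjoint_right]
      intro x hx
      exact Finset.mem_compl.1 (Finset.mem_powerset.1 h.2 hx)
    show f S * g U * F (S ∪ U) = f ((S ∪ U) \ U) * g U * F (S ∪ U)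
    rw [Finset.union_sdiff_cancel_right hd]

omit [Fintype J] in
theorem star_cv (f g : Finset J → ℂ) (S : Finset J) :
    star (cv f g S) = cv (fun T => star (f T)) (fun T => star (g T)) S := by
  unfold cv
  rw [star_sum]
  refine Finset.sum_congr rfl fun U _ => ?_
  rw [star_mul']

/-- the form of a rank one message -/
theorem hf_rank_one (Z : Finset J → Finset J → ℂ) (f w : Finset J → ℂ) :
    hf (Dz (fun U W => w U * star (w W)) Z) f = hf Z (cv f w) := by
  unfold hf
  have h1 : ∀ S : Finset J, ∑ R, f S * Dz (fun U W => w U * star (w W)) Z S R * star (f R) =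
      ∑ U ∈ Sᶜ.powerset, f S * w U * ∑ R, Z (S ∪ U) R * star (cv f w R) := by
    intro S
    unfold Dz
    simp_rw [star_cv]
    have h2 : ∀ T : Finset J, ∑ R, Z T R * cv (fun T => star (f T)) (fun T => star (w T)) R =
        ∑ R, ∑ W ∈ Rᶜ.powerset, star (f R) * star (w W) * Z T (R ∪ W) := by
      intro T
      rw [sum_cv (fun T => star (f T)) (fun T => star (w T)) (fun R => Z T R)]
      exact Finset.sum_congr rfl fun R _ => mul_comm _ _
    simp_rw [h2]
    simp_rw [Finset.mul_sum, Finset.sum_mul]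
    rw [Finset.sum_comm]
    refine Finset.sum_congr rfl fun R _ => ?_
    refine Finset.sum_congr rfl fun U _ => ?_
    refine Finset.sum_congr rfl fun W _ => ?_
    ring
  rw [Finset.sum_congr rfl fun S _ => h1 S]
  rw [sum_cv f w (fun T => ∑ R, Z T R * star (cv f w R))]
  refine Finset.sum_congr rfl fun S _ => ?_
  rw [Finset.mul_sum]
  refine Finset.sum_congr rfl fun R _ => ?_
  ring

/-- linearity -/
theorem Dz_sum {ι : Type*} (s : Finset ι) (μ : ι → ℂ) (K : ι → Finset J → Finset J → ℂ)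
    (Z : Finset J → Finset J → ℂ) (S R : Finset J) :
    Dz (fun U W => ∑ i ∈ s, μ i * K i U W) Z S R = ∑ i ∈ s, μ i * Dz (K i) Z S R := by
  unfold Dz
  simp_rw [Finset.mul_sum, Finset.sum_mul]
  symm
  rw [Finset.sum_comm]
  refine Finset.sum_congr rfl fun U _ => ?_
  rw [Finset.sum_comm]
  refine Finset.sum_congr rfl fun W _ => ?_
  refine Finset.sum_congr rfl fun i _ => ?_
  ring

theorem hf_sum {ι : Type*} (s : Finset ι) (μ : ι → ℂ) (Z : ι → Finset J → Finset J → ℂ)
    (f : Finset J → ℂ) :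
    hf (fun S R => ∑ i ∈ s, μ i * Z i S R) f = ∑ i ∈ s, μ i * hf (Z i) f := by
  unfold hf
  simp_rw [Finset.mul_sum, Finset.sum_mul]
  symm
  rw [Finset.sum_comm]
  refine Finset.sum_congr rfl fun S _ => ?_
  rw [Finset.sum_comm]
  refine Finset.sum_congr rfl fun R _ => ?_
  refine Finset.sum_congr rfl fun i _ => ?_
  ring

theorem hf_Dz_sum {ι : Type*} (s : Finset ι) (μ : ι → ℂ) (K : ι → Finset J → Finset J → ℂ)
    (Z : Finset J → Finset J → ℂ) (f : Finset J → ℂ) :
    hf (Dz (fun U W => ∑ i ∈ s, μ i * K i U W) Z) f = ∑ i ∈ s, μ i * hf (Dz (K i) Z) f := by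
  have h : Dz (fun U W => ∑ i ∈ s, μ i * K i U W) Z = fun S R => ∑ i ∈ s, μ i * Dz (K i) Z S R := by
    funext S R
    exact Dz_sum s μ K Z S R
  rw [h, hf_sum]

theorem hf_congr (Z Z' : Finset J → Finset J → ℂ) (f : Finset J → ℂ)
    (h : ∀ S R, f S ≠ 0 → Z S R = Z' S R) : hf Z f = hf Z' f := by
  unfold hf
  refine Finset.sum_congr rfl fun S _ => ?_
  refine Finset.sum_congr rfl fun R _ => ?_
  by_cases hS : f S = 0
  · simp [hS]
  · rw [h S R hS]

/-- a sum of rank one messages -/
theorem hf_frame {ι : Type*} [Fintype ι] (μ : ι → ℂ) (w : ι → Finset J → ℂ)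
    (Z : Finset J → Finset J → ℂ) (f : Finset J → ℂ) :
    hf (Dz (fun U W => ∑ i, μ i * (w i U * star (w i W))) Z) f = ∑ i, μ i * hf Z (cv f (w i)) := by
  rw [hf_Dz_sum univ μ (fun i U W => w i U * star (w i W)) Z f]
  refine Finset.sum_congr rfl fun i _ => ?_
  rw [hf_rank_one]

/-- a frame of degree `k` and mass `c` -/
def Fr (B : J → J → ℂ) (k : ℕ) (c : ℝ) {ι : Type*} [Fintype ι] (f : ι → Finset J → ℂ) : Prop :=
  ∀ S R, ∑ i, f i S * star (f i R) = if S.card = k then (c : ℂ) * GG B S R else 0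

theorem Fr_hom {B : J → J → ℂ} {k : ℕ} {c : ℝ} {ι : Type*} [Fintype ι] {f : ι → Finset J → ℂ}
    (h : Fr B k c f) (i : ι) (S : Finset J) (hS : S.card ≠ k) : f i S = 0 := by
  have h1 := h S S
  rw [if_neg hS] at h1
  have h2 : ∀ i, f i S * star (f i S) = ((Complex.normSq (f i S) : ℝ) : ℂ) := fun i => by
    rw [Complex.star_def, Complex.mul_conj]
  simp_rw [h2] at h1
  have h3 : ∑ i, Complex.normSq (f i S) = 0 := by exact_mod_cast h1
  have h4 := (Finset.sum_eq_zero_iff_of_nonneg fun i _ => Complex.normSq_nonneg (f i S)).1 h3 i (mem_univ i)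
  exact Complex.normSq_eq_zero.1 h4

omit [Fintype J] in
theorem sum_powerset_card (S : Finset J) (l : ℕ) (a : ℂ) :
    ∑ U ∈ S.powerset, (if U.card = l then a else 0) = (S.card.choose l : ℂ) * a := by
  rw [← Finset.sum_filter, ← Finset.powersetCard_eq_filter, Finset.sum_const, Finset.card_powersetCard,
    nsmul_eq_mul]

/-- the kernel of the empty piece -/
noncomputable def V0 (B : J → J → ℂ) (S R : Finset J) : ℂ := GG B Sᶜ Rᶜ

theorem Dz_V0 (B : J → J → ℂ) (l : ℕ) (S R : Finset J) :
    Dz (fun U W => if U.card = l then GG B U W else 0) (V0 B) S R = (Sᶜ.card.choose l : ℂ) * V0 B S R := by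
  unfold Dz V0
  rw [← sum_powerset_card]
  refine Finset.sum_congr rfl fun U hU => ?_
  rw [Finset.mem_powerset] at hU
  by_cases h : U.card = l
  · rw [if_pos h]
    simp_rw [if_pos h]
    have hd : Disjoint U (Sᶜ \ U) := Finset.disjoint_sdiff
    have h1 := GG_rows B U (Sᶜ \ U) Rᶜ hd
    rw [Finset.union_sdiff_of_subset hU] at h1
    rw [h1]
    refine Finset.sum_congr rfl fun W _ => ?_
    rw [Finset.compl_union, Finset.compl_union, ← Finset.sdiff_eq_inter_compl, ← Finset.sdiff_eq_inter_compl]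
  · rw [if_neg h]
    simp_rw [if_neg h, zero_mul]
    exact Finset.sum_const_zero

/-- (J3) -/
theorem J3 {B : J → J → ℂ} {l : ℕ} {c : ℝ} {ι : Type*} [Fintype ι] {w : ι → Finset J → ℂ}
    (hw : Fr B l c w) (f : Finset J → ℂ) (k : ℕ) (hf' : ∀ S, S.card ≠ k → f S = 0) :
    ∑ i, hf (V0 B) (cv f (w i)) = (c * ((Fintype.card J - k).choose l : ℂ)) * hf (V0 B) f := by
  have h1 := hf_frame (fun _ => (1 : ℂ)) w (V0 B) f
  simp_rw [one_mul] at h1
  rw [← h1]
  have h2 : (fun U W => ∑ i, w i U * star (w i W)) =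
      fun U W => ∑ _i ∈ ({()} : Finset Unit), (c : ℂ) * (if U.card = l then GG B U W else 0) := by
    funext U W
    rw [hw U W, Finset.sum_singleton]
    split_ifs <;> simp
  rw [h2, hf_Dz_sum ({()} : Finset Unit) (fun _ => (c : ℂ)) (fun _ U W => if U.card = l then GG B U W else 0),
    Finset.sum_singleton, mul_assoc]
  congr 1
  have h3 : hf (Dz (fun U W => if U.card = l then GG B U W else 0) (V0 B)) f =
      hf (fun S R => ∑ _i ∈ ({()} : Finset Unit), ((Fintype.card J - k).choose l : ℂ) * V0 B S R) f := by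
    refine hf_congr _ _ _ fun S R hS => ?_
    rw [Dz_V0, Finset.sum_singleton]
    have hk : S.card = k := by
      by_contra hne
      exact hS (hf' S hne)
    rw [Finset.card_compl, hk]
  rw [h3, hf_sum ({()} : Finset Unit) (fun _ => ((Fintype.card J - k).choose l : ℂ)) (fun _ => V0 B),
    Finset.sum_singleton]

/-- (J4) -/
theorem J4 {B : J → J → ℂ} {k l : ℕ} {c d : ℝ} {ι κ : Type*} [Fintype ι] [Fintype κ]
    {f : ι → Finset J → ℂ} {w : κ → Finset J → ℂ} (hf : Fr B k c f) (hw : Fr B l d w) :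
    Fr B (k + l) (c * d * ((k + l).choose l : ℝ)) (fun p : ι × κ => cv (f p.1) (w p.2)) := by
  intro S R
  rw [Fintype.sum_prod_type]
  have h1 : ∀ i j, cv (f i) (w j) S * star (cv (f i) (w j) R) =
      ∑ U ∈ S.powerset, ∑ W ∈ R.powerset, (f i (S \ U) * star (f i (R \ W))) * (w j U * star (w j W)) := by
    intro i j
    rw [star_cv]
    unfold cv
    rw [Finset.sum_mul_sum]
    refine Finset.sum_congr rfl fun U _ => ?_
    refine Finset.sum_congr rfl fun W _ => ?_
    ring
  simp_rw [h1]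
  have h2 : ∑ i, ∑ j, ∑ U ∈ S.powerset, ∑ W ∈ R.powerset,
      (f i (S \ U) * star (f i (R \ W))) * (w j U * star (w j W)) =
      ∑ U ∈ S.powerset, ∑ W ∈ R.powerset, (∑ i, f i (S \ U) * star (f i (R \ W))) *
        (∑ j, w j U * star (w j W)) := by
    simp_rw [Finset.sum_mul_sum]
    rw [Finset.sum_congr rfl fun i _ => Finset.sum_comm, Finset.sum_comm]
    refine Finset.sum_congr rfl fun U _ => ?_
    rw [Finset.sum_congr rfl fun i _ => Finset.sum_comm, Finset.sum_comm]
  rw [h2]
  have h3 : ∀ U ∈ S.powerset, ∑ W ∈ R.powerset, (∑ i, f i (S \ U) * star (f i (R \ W))) *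
        (∑ j, w j U * star (w j W)) =
        if S.card = k + l then (if U.card = l then (c * d : ℂ) * GG B S R else 0) else 0 := by
    intro U hU
    rw [Finset.mem_powerset] at hU
    have hcU := Finset.card_sdiff_add_card_eq_card hU
    simp_rw [hf _ _, hw _ _]
    by_cases h4 : U.card = l
    · simp_rw [if_pos h4]
      by_cases h5 : S.card = k + l
      · have h6 : (S \ U).card = k := by omega
        simp_rw [if_pos h5, if_pos h6]
        have h7 := GG_rows B U (S \ U) R Finset.disjoint_sdiff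
        rw [Finset.union_sdiff_of_subset hU] at h7
        rw [h7, Finset.mul_sum]
        refine Finset.sum_congr rfl fun W _ => ?_
        ring
      · have h6 : (S \ U).card ≠ k := by omega
        simp_rw [if_neg h5, if_neg h6, zero_mul]
        exact Finset.sum_const_zero
    · simp_rw [if_neg h4, mul_zero]
      rw [Finset.sum_const_zero, ite_self]
  rw [Finset.sum_congr rfl h3]
  by_cases h5 : S.card = k + l
  · simp_rw [if_pos h5]
    rw [sum_powerset_card, h5]
    push_cast
    ring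
  · simp_rw [if_neg h5]
    exact Finset.sum_const_zero

/-- (J5) -/
theorem J5 {B : J → J → ℂ} {k : ℕ} {c : ℝ} {ι : Type*} [Fintype ι] {f : ι → Finset J → ℂ}
    (hf' : Fr B k c f) (w : Finset J → ℂ) (l : ℕ) (hw : ∀ S, S.card ≠ l → w S = 0) :
    ∑ i, hf (V0 B) (cv (f i) w) = (c * ((Fintype.card J - l).choose k : ℂ)) * hf (V0 B) w := by
  have h := J3 hf' w l hw
  rw [← h]
  refine Finset.sum_congr rfl fun i _ => ?_
  rw [cv_comm]

/-- the unit -/
noncomputable def del (S : Finset J) : ℂ := if S = ∅ then 1 else 0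

omit [Fintype J] in
theorem cv_del (f : Finset J → ℂ) : cv f del = f := by
  funext S
  unfold cv del
  rw [Finset.sum_eq_single ∅]
  · rw [if_pos rfl, mul_one, Finset.sdiff_empty]
  · intro U _ hU
    rw [if_neg hU, mul_zero]
  · intro h
    exact absurd (Finset.mem_powerset.2 (Finset.empty_subset S)) h

theorem hf_del (Z : Finset J → Finset J → ℂ) : hf Z del = Z ∅ ∅ := by
  unfold hf del
  rw [Finset.sum_eq_single ∅, Finset.sum_eq_single ∅]
  · simp
  · intro R _ hR
    simp [hR]
  · intro h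
    exact absurd (mem_univ _) h
  · intro S _ hS
    simp [hS]
  · intro h
    exact absurd (mem_univ _) h

theorem Fr_del (B : J → J → ℂ) : Fr B 0 1 (fun _ : Unit => (del : Finset J → ℂ)) := by
  intro S R
  rw [Fintype.sum_unique]
  unfold del
  by_cases hS : S = ∅
  · subst hS
    by_cases hR : R = ∅
    · subst hR
      simp [GG_empty]
    · have : GG B ∅ R = 0 := by
        apply GG_card
        rw [Finset.card_empty]
        exact fun h => hR (Finset.card_eq_zero.1 h.symm)
      simp [hR, this]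
  · have : S.card ≠ 0 := fun h => hS (Finset.card_eq_zero.1 h)
    simp [hS]

theorem J5' {B : J → J → ℂ} {k : ℕ} {c : ℝ} {ι : Type*} [Fintype ι] {f : ι → Finset J → ℂ}
    (hf' : Fr B k c f) :
    ∑ i, hf (V0 B) (f i) = (c * ((Fintype.card J).choose k : ℂ)) * GG B univ univ := by
  have h := J5 hf' del 0 (fun S hS => if_neg fun h => hS (by rw [h, Finset.card_empty]))
  simp_rw [cv_del] at h
  rw [h, hf_del, Nat.sub_zero]
  unfold V0
  rw [Finset.compl_empty]

end

end Pool.Agent.helper96.LSZF
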