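import Pool.Agent.helper96.LSZF.L3

/-!
# Positivity, eigenframes, the message formula (forest theorem, MP_2dd521_co)
-/

set_option autoImplicit false

open Finset BigOperators
open scoped ComplexOrder
open Pool.Agent.helper16.LSZ

namespace Pool.Agent.helper96.LSZF

section

variable {J : Type} [Fintype J] [DecidableEq J]

/-- the real quadratic form -/
noncomputable def qf (Z : Finset J → Finset J → ℂ) (f : Finset J → ℂ) : ℝ := (hf Z f).re

theorem hf_nonneg {Z : Matrix (Finset J) (Finset J) ℂ} (hZ : Z.PosSemidef) (f : Finset J → ℂ) :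
    0 ≤ hf Z f := by
  have h := hZ.dotProduct_mulVec_nonneg (fun S => star (f S))
  have e : hf Z f = star (fun S => star (f S)) ⬝ᵥ Z.mulVec (fun S => star (f S)) := by
    unfold hf
    rw [dotProduct]
    refine Finset.sum_congr rfl fun S _ => ?_
    rw [Matrix.mulVec, dotProduct, Finset.mul_sum]
    refine Finset.sum_congr rfl fun R _ => ?_
    simp only [Pi.star_apply, star_star]
    ring
  rw [e]
  exact h

theorem qf_nonneg {Z : Matrix (Finset J) (Finset J) ℂ} (hZ : Z.PosSemidef) (f : Finset J → ℂ) :
    0 ≤ qf Z f := (Complex.nonneg_iff.1 (hf_nonneg hZ f)).1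

theorem hf_eq {Z : Matrix (Finset J) (Finset J) ℂ} (hZ : Z.PosSemidef) (f : Finset J → ℂ) :
    hf Z f = (qf Z f : ℂ) := by
  have h := (Complex.nonneg_iff.1 (hf_nonneg hZ f)).2
  apply Complex.ext
  · rfl
  · rw [Complex.ofReal_im]; exact h.symm

theorem V0_psd (B : Matrix J J ℂ) (hB : B.PosSemidef) :
    Matrix.PosSemidef (V0 B : Matrix (Finset J) (Finset J) ℂ) :=
  (GG_posSemidef B hB).submatrix compl

theorem sum_card_sub (l : ℕ) (F : Finset J → ℂ) (h : ∀ S, S.card ≠ l → F S = 0) :
    ∑ S, F S = ∑ x : {S : Finset J // S.card = l}, F x.1 := by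
  have h1 : ∑ S, F S = ∑ S ∈ univ.filter (fun S : Finset J => S.card = l), F S := by
    symm
    apply Finset.sum_filter_of_ne
    intro S _ hS
    by_contra hne
    exact hS (h S hne)
  rw [h1, Finset.sum_subtype (p := fun S : Finset J => S.card = l)]
  intro S
  simp

/-- the eigenframe of the message of a piece, in degree `l` -/
theorem eigenframe (B : Matrix J J ℂ) (hB : B.PosSemidef) (Z : Matrix (Finset J) (Finset J) ℂ)
    (hZ : Z.PosSemidef) (l : ℕ) :
    ∃ w : {S : Finset J // S.card = l} → Finset J → ℂ, Fr B l 1 w ∧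
      ∀ S R : Finset J, S.card = l → R.card = l →
        ∑ W : Finset J, ∑ U : Finset J, GG B S W * (GG B U R * Z U W) =
          ∑ x, (qf Z (w x) : ℂ) * (w x S * star (w x R)) := by
  have hG : Matrix.PosSemidef ((GG B).submatrix (Subtype.val : {S : Finset J // S.card = l} → Finset J)
      (Subtype.val : {S : Finset J // S.card = l} → Finset J)) := (GG_posSemidef B hB).submatrix _
  have hW : Matrix.PosSemidef (Z.transpose.submatrix (Subtype.val : {S : Finset J // S.card = l} → Finset J)
      (Subtype.val : {S : Finset J // S.card = l} → Finset J)) := hZ.transpose.submatrix _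
  obtain ⟨w, lam, hlam, hG1, hG2, hG3⟩ := sim_diag hG hW
  let w' : {S : Finset J // S.card = l} → Finset J → ℂ := fun x S => if h : S.card = l then w x ⟨S, h⟩ else 0
  have hw1 : ∀ x S (h : S.card = l), w' x S = w x ⟨S, h⟩ := fun x S h => dif_pos h
  have hw0 : ∀ x S, S.card ≠ l → w' x S = 0 := fun x S h => dif_neg h
  have hq : ∀ x, hf Z (w' x) = (lam x : ℂ) := by
    intro x
    rw [← hG3 x]
    unfold hf
    rw [Finset.sum_comm, sum_card_sub l]
    · refine Finset.sum_congr rfl fun S _ => ?_
      rw [sum_card_sub l]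
      · refine Finset.sum_congr rfl fun R _ => ?_
        rw [hw1 x _ S.2, hw1 x _ R.2]
        show _ = star (w x S) * Z R.1 S.1 * w x R
        ring
      · intro R hR
        rw [hw0 x R hR, zero_mul, zero_mul]
    · intro S hS
      apply Finset.sum_eq_zero
      intro R _
      rw [hw0 x S hS, star_zero, mul_zero]
  refine ⟨w', ?_, ?_⟩
  · intro S R
    by_cases hS : S.card = l
    · rw [if_pos hS]
      by_cases hR : R.card = l
      · have := hG1 ⟨S, hS⟩ ⟨R, hR⟩
        rw [Matrix.submatrix_apply] at this
        rw [Complex.ofReal_one, one_mul, this]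
        refine Finset.sum_congr rfl fun x _ => ?_
        rw [hw1 x S hS, hw1 x R hR]
      · rw [GG_card B S R (by rw [hS]; exact fun h => hR h.symm), mul_zero]
        apply Finset.sum_eq_zero
        intro x _
        rw [hw0 x R hR, star_zero, mul_zero]
    · rw [if_neg hS]
      apply Finset.sum_eq_zero
      intro x _
      rw [hw0 x S hS, zero_mul]
  · intro S R hS hR
    have h1 := hG2 ⟨S, hS⟩ ⟨R, hR⟩
    have h2 : ∑ x, (qf Z (w' x) : ℂ) * (w' x S * star (w' x R)) =
        ∑ x, (lam x : ℂ) * (w x ⟨S, hS⟩ * star (w x ⟨R, hR⟩)) := by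
      refine Finset.sum_congr rfl fun x _ => ?_
      rw [← hf_eq hZ, hq x, hw1 x S hS, hw1 x R hR]
    rw [h2, ← h1, Matrix.mul_apply]
    simp_rw [Matrix.mul_apply, Finset.sum_mul]
    rw [sum_card_sub l]
    · rw [Finset.sum_comm]
      rw [sum_card_sub l]
      · refine Finset.sum_congr rfl fun U _ => ?_
        refine Finset.sum_congr rfl fun W _ => ?_
        show _ = GG B S W.1 * Z U.1 W.1 * GG B U.1 R
        ring
      · intro U hU
        apply Finset.sum_eq_zero
        intro W _
        rw [GG_card B U R (by rw [hR]; exact hU), zero_mul, mul_zero]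
    · intro W hW
      apply Finset.sum_eq_zero
      intro U _
      rw [GG_card B S W (by rw [hS]; exact fun h => hW h.symm), zero_mul]

end

end Pool.Agent.helper96.LSZF
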