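import Pool.Agent.helper96.LSZF.L4

/-!
# The kernel of a piece and the message formula (forest theorem, MP_2dd521_co)
-/

set_option autoImplicit false

open Finset BigOperators
open scoped ComplexOrder
open Pool.Agent.helper16.LSZ

namespace Pool.Agent.helper96.LSZF

section

variable {I J : Type} [Fintype I] [Fintype J] [DecidableEq I] [DecidableEq J]

theorem ZT_card (A : I → I → ℂ) (B : J → J → ℂ) (T : Finset I) (v : I) (hv : v ∈ T) (S R : Finset J)
    (h : S.card ≠ R.card) : ZT A B T v S R = 0 := by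
  apply GG_card
  have hc : ∀ S : Finset J, ((T ×ˢ (univ : Finset J)) \ ({v} ×ˢ S)).card + S.card =
      (T ×ˢ (univ : Finset J)).card := by
    intro S
    have hsub : ({v} : Finset I) ×ˢ S ⊆ T ×ˢ (univ : Finset J) :=
      Finset.product_subset_product (Finset.singleton_subset_iff.2 hv) (Finset.subset_univ _)
    have h1 := Finset.card_sdiff_add_card_eq_card hsub
    rw [Finset.card_product ({v} : Finset I) S, Finset.card_singleton, one_mul] at h1
    exact h1
  intro h2
  have h3 := hc S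
  have h4 := hc R
  omega

theorem sum_up (w F : Finset J → ℂ) (S : Finset J) :
    ∑ S' : Finset J, (if S ⊆ S' then w (S' \ S) else 0) * F S' = ∑ U ∈ Sᶜ.powerset, w U * F (S ∪ U) := by
  have h1 : ∑ S' : Finset J, (if S ⊆ S' then w (S' \ S) else 0) * F S' =
      ∑ S' ∈ univ.filter (fun S' : Finset J => S ⊆ S'), w (S' \ S) * F S' := by
    rw [Finset.sum_filter]
    refine Finset.sum_congr rfl fun S' _ => ?_
    split_ifs <;> simp
  rw [h1]
  refine Finset.sum_bij' (fun S' _ => S' \ S) (fun U _ => S ∪ U) ?_ ?_ ?_ ?_ ?_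
  · intro S' _
    rw [Finset.mem_powerset]
    intro x hx
    exact Finset.mem_compl.2 (Finset.mem_sdiff.1 hx).2
  · intro U _
    rw [Finset.mem_filter]
    exact ⟨mem_univ _, Finset.subset_union_left⟩
  · intro S' hS'
    rw [Finset.mem_filter] at hS'
    exact Finset.union_sdiff_of_subset hS'.2
  · intro U hU
    have hd : Disjoint S U := by
      rw [Finset.disjoint_right]
      intro x hx
      exact Finset.mem_compl.1 (Finset.mem_powerset.1 hU hx)
    exact Finset.union_sdiff_cancel_left hd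
  · intro S' hS'
    rw [Finset.mem_filter] at hS'
    rw [Finset.union_sdiff_of_subset hS'.2]

theorem Dz_rank_one_psd (Z : Matrix (Finset J) (Finset J) ℂ) (hZ : Z.PosSemidef) (w : Finset J → ℂ) :
    Matrix.PosSemidef (Dz (fun U W => w U * star (w W)) Z : Matrix (Finset J) (Finset J) ℂ) := by
  set C : Matrix (Finset J) (Finset J) ℂ := fun S S' => if S ⊆ S' then w (S' \ S) else 0 with hC
  have h : (Dz (fun U W => w U * star (w W)) Z : Matrix (Finset J) (Finset J) ℂ) = C * Z * C.conjTranspose := by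
    ext S R
    rw [Matrix.mul_apply]
    have h1 : ∀ R', (C * Z) S R' * C.conjTranspose R' R =
        (if R ⊆ R' then (fun W => star (w W)) (R' \ R) else 0) * (C * Z) S R' := by
      intro R'
      rw [Matrix.conjTranspose_apply, mul_comm]
      congr 1
      rw [hC]
      show star (if R ⊆ R' then w (R' \ R) else 0) = _
      split_ifs <;> simp
    rw [Finset.sum_congr rfl fun R' _ => h1 R', sum_up (fun W => star (w W)) (fun R' => (C * Z) S R') R]
    have h2 : ∀ R', (C * Z) S R' = ∑ U ∈ Sᶜ.powerset, w U * Z (S ∪ U) R' := by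
      intro R'
      rw [Matrix.mul_apply]
      exact sum_up w (fun S' => Z S' R') S
    simp_rw [h2]
    unfold Dz
    rw [Finset.sum_comm]
    refine Finset.sum_congr rfl fun W _ => ?_
    rw [Finset.mul_sum]
    refine Finset.sum_congr rfl fun U _ => ?_
    ring
  rw [h]
  exact hZ.mul_mul_conjTranspose_same C

/-- the kernel formula -/
theorem message_ker (A : I → I → ℂ) (B : J → J → ℂ)
    (T1 T2 : Finset I) (v c : I) (hv : v ∈ T1) (hc : c ∈ T2) (t : ℝ) (ht : A v c * A c v = (t : ℂ))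
    (hT : Disjoint T1 T2) (h12 : ∀ i ∈ T1, ∀ j ∈ T2, ¬ (i = v ∧ j = c) → A i j = 0)
    (h21 : ∀ i ∈ T2, ∀ j ∈ T1, ¬ (i = c ∧ j = v) → A i j = 0)
    (w : ∀ l : ℕ, {S : Finset J // S.card = l} → Finset J → ℂ) (hw : ∀ l, Fr B l 1 (w l))
    (hm : ∀ l (S R : Finset J), S.card = l → R.card = l →
        ∑ W : Finset J, ∑ U : Finset J, GG B S W * (GG B U R * ZT A B T2 c U W) =
          ∑ x, (qf (ZT A B T2 c) (w l x) : ℂ) * (w l x S * star (w l x R))) (S R : Finset J) :
    ZT A B (T1 ∪ T2) v S R = Dz (fun U W => ∑ l ∈ Finset.range (Fintype.card J + 1), (1 : ℂ) * ∑ x,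
        ((t ^ l * qf (ZT A B T2 c) (w l x) : ℝ) : ℂ) * (w l x U * star (w l x W)))
        (ZT A B T1 v) S R := by
  have hH : ∀ U W : Finset J, (∑ W' : Finset J, ∑ U' : Finset J, A v c ^ U.card * GG B U W' *
      (A c v ^ U'.card * GG B U' W * ZT A B T2 c U' W')) =
      ∑ l ∈ Finset.range (Fintype.card J + 1), (1 : ℂ) * ∑ x,
        ((t ^ l * qf (ZT A B T2 c) (w l x) : ℝ) : ℂ) * (w l x U * star (w l x W)) := by
    intro U W
    have hr : ∑ l ∈ Finset.range (Fintype.card J + 1), (1 : ℂ) * ∑ x,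
        ((t ^ l * qf (ZT A B T2 c) (w l x) : ℝ) : ℂ) * (w l x U * star (w l x W)) =
        ∑ x, ((t ^ U.card * qf (ZT A B T2 c) (w U.card x) : ℝ) : ℂ) *
          (w U.card x U * star (w U.card x W)) := by
      rw [Finset.sum_eq_single U.card]
      · rw [one_mul]
      · intro l _ hl
        rw [one_mul]
        apply Finset.sum_eq_zero
        intro x _
        rw [Fr_hom (hw l) x U (fun h => hl h.symm), zero_mul, mul_zero]
      · intro h
        exact absurd (Finset.mem_range.2 (Nat.lt_succ_of_le (Finset.card_le_univ U))) h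
    rw [hr]
    by_cases hUW : W.card = U.card
    · have h1 := hm U.card U W rfl hUW
      have h2 : ∑ x, ((t ^ U.card * qf (ZT A B T2 c) (w U.card x) : ℝ) : ℂ) *
          (w U.card x U * star (w U.card x W)) = ((t : ℝ) : ℂ) ^ U.card *
          ∑ x, (qf (ZT A B T2 c) (w U.card x) : ℂ) * (w U.card x U * star (w U.card x W)) := by
        rw [Finset.mul_sum]
        refine Finset.sum_congr rfl fun x _ => ?_
        push_cast
        ring
      rw [h2, ← h1, Finset.mul_sum]
      refine Finset.sum_congr rfl fun W' _ => ?_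
      rw [Finset.mul_sum]
      refine Finset.sum_congr rfl fun U' _ => ?_
      by_cases hU' : U'.card = W.card
      · have h3 : A v c ^ U.card * A c v ^ U'.card = ((t : ℝ) : ℂ) ^ U.card := by
          rw [hU', hUW, ← mul_pow, ht]
        rw [← h3]
        ring
      · rw [GG_card B U' W hU']
        ring
    · have h1 : ∑ x, ((t ^ U.card * qf (ZT A B T2 c) (w U.card x) : ℝ) : ℂ) *
          (w U.card x U * star (w U.card x W)) = 0 := by
        apply Finset.sum_eq_zero
        intro x _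
        rw [Fr_hom (hw U.card) x W hUW, star_zero, mul_zero, mul_zero]
      rw [h1]
      apply Finset.sum_eq_zero
      intro W' _
      apply Finset.sum_eq_zero
      intro U' _
      by_cases a1 : U.card = W'.card
      · by_cases a2 : U'.card = W.card
        · have a3 : U'.card ≠ W'.card := by
            rw [a2, ← a1]; exact hUW
          rw [ZT_card A B T2 c hc U' W' a3]
          ring
        · rw [GG_card B U' W a2]
          ring
      · rw [GG_card B U W' a1]
        ring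
  rw [ZT_join A B T1 T2 v c hv hc hT h12 h21]
  simp_rw [hH]

/-- the message formula -/
theorem message (A : I → I → ℂ) (B : J → J → ℂ)
    (T1 T2 : Finset I) (v c : I) (hv : v ∈ T1) (hc : c ∈ T2) (t : ℝ) (ht : A v c * A c v = (t : ℂ))
    (hT : Disjoint T1 T2) (h12 : ∀ i ∈ T1, ∀ j ∈ T2, ¬ (i = v ∧ j = c) → A i j = 0)
    (h21 : ∀ i ∈ T2, ∀ j ∈ T1, ¬ (i = c ∧ j = v) → A i j = 0)
    (w : ∀ l : ℕ, {S : Finset J // S.card = l} → Finset J → ℂ) (hw : ∀ l, Fr B l 1 (w l))
    (hm : ∀ l (S R : Finset J), S.card = l → R.card = l →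
        ∑ W : Finset J, ∑ U : Finset J, GG B S W * (GG B U R * ZT A B T2 c U W) =
          ∑ x, (qf (ZT A B T2 c) (w l x) : ℂ) * (w l x S * star (w l x R)))
    (f : Finset J → ℂ) :
    qf (ZT A B (T1 ∪ T2) v) f = ∑ l ∈ Finset.range (Fintype.card J + 1),
      ∑ x, t ^ l * qf (ZT A B T2 c) (w l x) * qf (ZT A B T1 v) (cv f (w l x)) := by
  have hZ : hf (ZT A B (T1 ∪ T2) v) f = hf (Dz (fun U W => ∑ l ∈ Finset.range (Fintype.card J + 1), (1 : ℂ) * ∑ x,
        ((t ^ l * qf (ZT A B T2 c) (w l x) : ℝ) : ℂ) * (w l x U * star (w l x W)))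
        (ZT A B T1 v)) f :=
    hf_congr _ _ _ fun S R _ => message_ker A B T1 T2 v c hv hc t ht hT h12 h21 w hw hm S R
  have hfin : hf (ZT A B (T1 ∪ T2) v) f = ∑ l ∈ Finset.range (Fintype.card J + 1), ∑ x,
      ((t ^ l * qf (ZT A B T2 c) (w l x) : ℝ) : ℂ) * hf (ZT A B T1 v) (cv f (w l x)) := by
    rw [hZ, hf_Dz_sum (Finset.range (Fintype.card J + 1)) (fun _ => (1 : ℂ)) (fun l U W => ∑ x,
        ((t ^ l * qf (ZT A B T2 c) (w l x) : ℝ) : ℂ) * (w l x U * star (w l x W)))]
    refine Finset.sum_congr rfl fun l _ => ?_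
    rw [one_mul, hf_frame]
  unfold qf at hfin ⊢
  rw [hfin, Complex.re_sum]
  refine Finset.sum_congr rfl fun l _ => ?_
  rw [Complex.re_sum]
  refine Finset.sum_congr rfl fun x _ => ?_
  rw [Complex.re_ofReal_mul]

/-- the kernel of a joined piece is positive semidefinite -/
theorem message_psd (A : I → I → ℂ) (B : J → J → ℂ)
    (T1 T2 : Finset I) (v c : I) (hv : v ∈ T1) (hc : c ∈ T2) (t : ℝ) (ht0 : 0 ≤ t)
    (ht : A v c * A c v = (t : ℂ))
    (hT : Disjoint T1 T2) (h12 : ∀ i ∈ T1, ∀ j ∈ T2, ¬ (i = v ∧ j = c) → A i j = 0)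
    (h21 : ∀ i ∈ T2, ∀ j ∈ T1, ¬ (i = c ∧ j = v) → A i j = 0)
    (w : ∀ l : ℕ, {S : Finset J // S.card = l} → Finset J → ℂ) (hw : ∀ l, Fr B l 1 (w l))
    (hm : ∀ l (S R : Finset J), S.card = l → R.card = l →
        ∑ W : Finset J, ∑ U : Finset J, GG B S W * (GG B U R * ZT A B T2 c U W) =
          ∑ x, (qf (ZT A B T2 c) (w l x) : ℂ) * (w l x S * star (w l x R)))
    (hZ1 : Matrix.PosSemidef (ZT A B T1 v : Matrix (Finset J) (Finset J) ℂ))
    (hZ2 : Matrix.PosSemidef (ZT A B T2 c : Matrix (Finset J) (Finset J) ℂ)) :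
    Matrix.PosSemidef (ZT A B (T1 ∪ T2) v : Matrix (Finset J) (Finset J) ℂ) := by
  have h : @Eq (Matrix (Finset J) (Finset J) ℂ) (ZT A B (T1 ∪ T2) v)
      (∑ l ∈ Finset.range (Fintype.card J + 1), ∑ x, ((t ^ l * qf (ZT A B T2 c) (w l x) : ℝ) : ℂ) •
        (show Matrix (Finset J) (Finset J) ℂ from Dz (fun U W => w l x U * star (w l x W)) (ZT A B T1 v))) := by
    ext S R
    rw [message_ker A B T1 T2 v c hv hc t ht hT h12 h21 w hw hm S R,
      Dz_sum (Finset.range (Fintype.card J + 1)) (fun _ => (1 : ℂ)) (fun l U W => ∑ x,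
        ((t ^ l * qf (ZT A B T2 c) (w l x) : ℝ) : ℂ) * (w l x U * star (w l x W))), Matrix.sum_apply]
    refine Finset.sum_congr rfl fun l _ => ?_
    rw [one_mul, Dz_sum univ (fun x => ((t ^ l * qf (ZT A B T2 c) (w l x) : ℝ) : ℂ))
      (fun x U W => w l x U * star (w l x W)), Matrix.sum_apply]
    refine Finset.sum_congr rfl fun x _ => ?_
    rw [Matrix.smul_apply, smul_eq_mul]
  rw [h]
  refine Matrix.posSemidef_sum _ fun l _ => Matrix.posSemidef_sum _ fun x _ => ?_
  refine Matrix.PosSemidef.smul (Dz_rank_one_psd _ hZ1 _) ?_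
  rw [Complex.zero_le_real]
  exact mul_nonneg (pow_nonneg ht0 _) (qf_nonneg hZ2 _)

/-- a single vertex -/
theorem single (A : Matrix I I ℂ) (B : Matrix J J ℂ) (v : I) (a : ℝ) (ha : A v v = (a : ℂ))
    (f : Finset J → ℂ) (k : ℕ) (hk : ∀ S, S.card ≠ k → f S = 0) :
    qf (ZT A B {v} v) f = a ^ (Fintype.card J - k) * qf (V0 B) f := by
  have h1 : hf (ZT A B {v} v) f = ((a ^ (Fintype.card J - k) : ℝ) : ℂ) * hf (V0 B) f := by
    have h2 : hf (ZT A B {v} v) f = hf (fun S R => ∑ _i ∈ ({()} : Finset Unit),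
        ((a ^ (Fintype.card J - k) : ℝ) : ℂ) * V0 B S R) f := by
      refine hf_congr _ _ _ fun S R hS => ?_
      have hSk : S.card = k := by
        by_contra hne
        exact hS (hk S hne)
      rw [ZT_single, Finset.sum_singleton, Finset.card_compl, hSk, ha]
      unfold V0
      push_cast
      ring
    rw [h2, hf_sum ({()} : Finset Unit) (fun _ => ((a ^ (Fintype.card J - k) : ℝ) : ℂ)) (fun _ => V0 B),
      Finset.sum_singleton]
  unfold qf
  rw [h1, Complex.re_ofReal_mul]

theorem single_psd (A : I → I → ℂ) (B : Matrix J J ℂ) (hB : B.PosSemidef) (v : I) (a : ℝ) (ha0 : 0 ≤ a)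
    (ha : A v v = (a : ℂ)) : Matrix.PosSemidef (ZT A B {v} v : Matrix (Finset J) (Finset J) ℂ) := by
  set D : Matrix (Finset J) (Finset J) ℂ := Matrix.diagonal (fun S => ((Real.sqrt a ^ Sᶜ.card : ℝ) : ℂ)) with hD
  have h : @Eq (Matrix (Finset J) (Finset J) ℂ) (ZT A B {v} v)
      (D * (show Matrix (Finset J) (Finset J) ℂ from V0 B) * D.conjTranspose) := by
    ext S R
    rw [hD, Matrix.diagonal_conjTranspose, Matrix.mul_diagonal, Matrix.diagonal_mul, ZT_single, ha]
    show _ = _ * V0 B S R * star (((Real.sqrt a ^ Rᶜ.card : ℝ) : ℂ))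
    unfold V0
    by_cases hc : Sᶜ.card = Rᶜ.card
    · rw [← hc, Complex.star_def, Complex.conj_ofReal]
      have h1 : ((a : ℝ) : ℂ) ^ Sᶜ.card = ((Real.sqrt a ^ Sᶜ.card : ℝ) : ℂ) * ((Real.sqrt a ^ Sᶜ.card : ℝ) : ℂ) := by
        have h2 : a ^ Sᶜ.card = Real.sqrt a ^ Sᶜ.card * Real.sqrt a ^ Sᶜ.card := by
          rw [← mul_pow, Real.mul_self_sqrt ha0]
        rw [← Complex.ofReal_mul, ← h2]
        push_cast
        ring
      rw [h1]
      ring
    · rw [GG_card B _ _ hc]
      ring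
  rw [h]
  exact (V0_psd B hB).mul_mul_conjTranspose_same D

end

end Pool.Agent.helper96.LSZF
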