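import Mathlib

/-!
# The entropy inequality for one join (forest theorem, MP_2dd521_co)
-/

set_option autoImplicit false

open Finset BigOperators

namespace Pool.Agent.helper96.LSZF

/-- the log-sum inequality -/
theorem log_sum {ι : Type*} (s : Finset ι) (a b : ι → ℝ) (ha : ∀ i ∈ s, 0 ≤ a i)
    (hb : ∀ i ∈ s, 0 ≤ b i) (h : ∀ i ∈ s, 0 < a i → 0 < b i) :
    ∑ i ∈ s, a i * Real.log (b i / a i) ≤
      (∑ i ∈ s, a i) * Real.log ((∑ i ∈ s, b i) / ∑ i ∈ s, a i) := by
  rcases eq_or_lt_of_le (Finset.sum_nonneg ha) with h0 | h0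
  · have h1 := (Finset.sum_eq_zero_iff_of_nonneg ha).1 h0.symm
    rw [← h0, zero_mul]
    apply le_of_eq
    apply Finset.sum_eq_zero
    intro i hi
    rw [h1 i hi, zero_mul]
  · obtain ⟨i0, hi0, hai0⟩ := Finset.exists_lt_of_sum_lt (s := s) (f := fun _ => (0 : ℝ)) (g := a)
      (by simpa using h0)
    have hB : 0 < ∑ i ∈ s, b i := Finset.sum_pos' hb ⟨i0, hi0, h i0 hi0 hai0⟩
    set Sa := ∑ i ∈ s, a i with hSa
    set Sb := ∑ i ∈ s, b i with hSb
    have h2 : ∀ i ∈ s, a i * Real.log (b i / a i) ≤ a i * Real.log (Sb / Sa) + (Sa / Sb * b i - a i) := by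
      intro i hi
      rcases eq_or_lt_of_le (ha i hi) with h3 | h3
      · rw [← h3, zero_mul, zero_mul, zero_add, sub_zero]
        have := hb i hi
        positivity
      · have hbi := h i hi h3
        have h4 := Real.log_le_sub_one_of_pos (x := b i * Sa / (a i * Sb)) (by positivity)
        have h5 : Real.log (b i * Sa / (a i * Sb)) = Real.log (b i / a i) - Real.log (Sb / Sa) := by
          rw [← Real.log_div (by positivity) (by positivity)]
          congr 1
          field_simp
        rw [h5] at h4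
        have h6 : a i * (Real.log (b i / a i) - Real.log (Sb / Sa)) ≤ a i * (b i * Sa / (a i * Sb) - 1) :=
          mul_le_mul_of_nonneg_left h4 h3.le
        have h7 : a i * (b i * Sa / (a i * Sb) - 1) = Sa / Sb * b i - a i := by
          field_simp
        rw [h7] at h6
        linarith
    calc ∑ i ∈ s, a i * Real.log (b i / a i) ≤
        ∑ i ∈ s, (a i * Real.log (Sb / Sa) + (Sa / Sb * b i - a i)) := Finset.sum_le_sum h2
      _ = Sa * Real.log (Sb / Sa) := by
        rw [Finset.sum_add_distrib, Finset.sum_sub_distrib, ← Finset.sum_mul, ← Finset.mul_sum,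
          ← hSa, ← hSb]
        have : Sa / Sb * Sb = Sa := div_mul_cancel₀ _ hB.ne'
        rw [this]
        ring

theorem join_real (m k : ℕ) (hk : k ≤ m) (β p1 p2 p01 p02 t c N1 N2 : ℝ) (hβ : 0 < β)
    (hp1 : 0 < p1) (hp2 : 0 < p2) (hp01 : 0 < p01) (hp02 : 0 < p02) (ht : 0 ≤ t) (hc : 0 ≤ c)
    (Ξ : Type) [Fintype Ξ] (X : ℕ → Type) [∀ l, Fintype (X l)]
    (hX : ∀ l, Fintype.card (X l) = m.choose l)
    (q0 qT : Ξ → ℝ) (d e : Ξ → (l : ℕ) → X l → ℝ) (g h : (l : ℕ) → X l → ℝ)
    (hq0 : ∀ ξ, 0 ≤ q0 ξ) (hd : ∀ ξ l x, 0 ≤ d ξ l x) (he : ∀ ξ l x, 0 ≤ e ξ l x)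
    (hg : ∀ l x, 0 ≤ g l x) (hh : ∀ l x, 0 ≤ h l x)
    (ha : ∀ ξ, ∑ l ∈ range (m + 1), ∑ x, t ^ l * g l x * e ξ l x ≤ qT ξ)
    (hb : ∀ ξ l, ∑ x, d ξ l x = ((m - k).choose l : ℝ) * q0 ξ)
    (hcc : ∀ l x, l ≤ m → ∑ ξ, d ξ l x = c * ((m - l).choose k : ℝ) * h l x)
    (hQ : ∑ ξ, q0 ξ = c * (m.choose k : ℝ) * β)
    (hS : ∀ l, l ≤ m → ∑ x, h l x = (m.choose l : ℝ) * β)
    (hI1 : ∀ l, k + l ≤ m → (∑ ξ, ∑ x, d ξ l x) * (N1 * Real.log β + ((k + l : ℕ) : ℝ) * Real.log p01 +
      ((m : ℝ) - ((k + l : ℕ) : ℝ)) * Real.log p1) ≤ ∑ ξ, ∑ x, d ξ l x * Real.log (e ξ l x / d ξ l x))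
    (hI2 : ∀ l, l ≤ m → (∑ x, h l x) * (N2 * Real.log β + (l : ℝ) * Real.log p02 +
      ((m : ℝ) - l) * Real.log p2) ≤ ∑ x, h l x * Real.log (g l x / h l x))
    (hpd : ∀ ξ l x, 0 < d ξ l x → 0 < e ξ l x) (hph : ∀ l x, 0 < h l x → 0 < g l x) :
    (∑ ξ, q0 ξ) * ((N1 + N2 + 1) * Real.log β + k * Real.log (p01 * p2) +
      ((m : ℝ) - k) * Real.log (p1 * p2 + t * p01 * p02)) ≤ ∑ ξ, q0 ξ * Real.log (qT ξ / q0 ξ) := by
  classical
  set p := p1 * p2 + t * p01 * p02 with hp
  have hp0 : 0 < p := by positivity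
  set M := m - k with hM
  set C : ℕ → ℝ := fun l => (M.choose l : ℝ) with hC
  set q : ℕ → ℝ := fun l => C l * ((t * p01 * p02) ^ l * (p1 * p2) ^ (M - l)) / p ^ M with hq
  set r : ℕ → ℝ := fun l => p ^ M / ((p01 * p02) ^ l * (p1 * p2) ^ (M - l)) with hr
  have hCpos : ∀ l, l ≤ M → 0 < C l := fun l hl => by
    simp only [hC]
    exact_mod_cast Nat.choose_pos hl
  have hrpos : ∀ l, 0 < r l := fun l => by
    simp only [hr]
    positivity
  have hqnn : ∀ l, 0 ≤ q l := fun l => by
    simp only [hq, hC]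
    positivity
  have hqr : ∀ l, q l * r l = C l * t ^ l := by
    intro l
    simp only [hq, hr]
    rw [mul_assoc t p01 p02, mul_pow t]
    field_simp
  have hqsum : ∑ l ∈ range (M + 1), q l = 1 := by
    have h1 := add_pow (t * p01 * p02) (p1 * p2) M
    have h2 : ∑ l ∈ range (M + 1), q l = (t * p01 * p02 + p1 * p2) ^ M / p ^ M := by
      rw [h1, Finset.sum_div]
      refine Finset.sum_congr rfl fun l _ => ?_
      simp only [hq, hC]
      ring
    rw [h2, add_comm, ← hp, div_self (by positivity)]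
  -- step 1
  have step1 : ∀ ξ, ∑ l ∈ range (M + 1), ∑ x, (q l / C l) * (d ξ l x * Real.log (g l x) +
      d ξ l x * Real.log (e ξ l x / d ξ l x) + d ξ l x * Real.log (r l)) ≤
      q0 ξ * Real.log (qT ξ / q0 ξ) := by
    intro ξ
    -- the terms
    set A : (Σ l : ℕ, X l) → ℝ := fun y => q y.1 / C y.1 * d ξ y.1 y.2 with hA
    set Bt : (Σ l : ℕ, X l) → ℝ := fun y => t ^ y.1 * g y.1 y.2 * e ξ y.1 y.2 with hBt
    set s : Finset (Σ l : ℕ, X l) := (range (M + 1)).sigma (fun l => (univ : Finset (X l))) with hs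
    have hlM : ∀ y ∈ s, y.1 ≤ M := by
      intro y hy
      have := (Finset.mem_sigma.1 hy).1
      exact Nat.lt_succ_iff.1 (Finset.mem_range.1 this)
    have hAnn : ∀ y ∈ s, 0 ≤ A y := fun y _ => by
      simp only [hA, hC]
      have := hqnn y.1
      have := hd ξ y.1 y.2
      positivity
    have hBnn : ∀ y ∈ s, 0 ≤ Bt y := fun y _ => by
      simp only [hBt]
      have := hg y.1 y.2
      have := he ξ y.1 y.2
      positivity
    have hgpos : ∀ l (x : X l), l ≤ M → 0 < d ξ l x → 0 < g l x := by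
      intro l x hl hdx
      apply hph
      have h1 : 0 < ∑ ξ', d ξ' l x := Finset.sum_pos' (fun ξ' _ => hd ξ' l x) ⟨ξ, mem_univ _, hdx⟩
      rw [hcc l x (by omega)] at h1
      rcases eq_or_lt_of_le (hh l x) with h2 | h2
      · rw [← h2, mul_zero] at h1
        exact absurd h1 (lt_irrefl _)
      · exact h2
    have hAB : ∀ y ∈ s, 0 < A y → 0 < Bt y := by
      intro y hy hAy
      have hCy := hCpos y.1 (hlM y hy)
      have hdy : 0 < d ξ y.1 y.2 := by
        rcases eq_or_lt_of_le (hd ξ y.1 y.2) with h2 | h2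
        · simp only [hA] at hAy
          rw [← h2, mul_zero] at hAy
          exact absurd hAy (lt_irrefl _)
        · exact h2
      have hqy : q y.1 ≠ 0 := by
        intro h2
        simp only [hA] at hAy
        rw [h2, zero_div, zero_mul] at hAy
        exact absurd hAy (lt_irrefl _)
      have hty : 0 < t ^ y.1 := by
        have h3 := hqr y.1
        have h4 : 0 < q y.1 * r y.1 := mul_pos (lt_of_le_of_ne (hqnn _) hqy.symm) (hrpos _)
        rw [h3] at h4
        exact (pos_iff_pos_of_mul_pos h4).1 hCy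
      simp only [hBt]
      exact mul_pos (mul_pos hty (hgpos _ _ (hlM y hy) hdy)) (hpd ξ _ _ hdy)
    have hls := log_sum s A Bt hAnn hBnn hAB
    have hsumA : ∑ y ∈ s, A y = q0 ξ := by
      rw [hs, Finset.sum_sigma]
      have h1 : ∀ l ∈ range (M + 1), ∑ x : X l, A ⟨l, x⟩ = q l * q0 ξ := by
        intro l hl
        have hl' : l ≤ M := Nat.lt_succ_iff.1 (Finset.mem_range.1 hl)
        have hCl := hCpos l hl'
        show ∑ x : X l, q l / C l * d ξ l x = _
        rw [← Finset.mul_sum, hb ξ l]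
        show q l / C l * (C l * q0 ξ) = _
        field_simp
      rw [Finset.sum_congr rfl h1, ← Finset.sum_mul, hqsum, one_mul]
    have hsumB : ∑ y ∈ s, Bt y ≤ qT ξ := by
      rw [hs, Finset.sum_sigma]
      refine le_trans ?_ (ha ξ)
      refine Finset.sum_le_sum_of_subset_of_nonneg ?_ ?_
      · intro l hl
        rw [Finset.mem_range] at hl ⊢
        omega
      · intro l _ _
        apply Finset.sum_nonneg
        intro x _
        have := hg l x
        have := he ξ l x
        positivity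
    have hmain : ∑ y ∈ s, A y * Real.log (Bt y / A y) ≤ q0 ξ * Real.log (qT ξ / q0 ξ) := by
      rw [hsumA] at hls
      refine hls.trans ?_
      rcases eq_or_lt_of_le (hq0 ξ) with h2 | h2
      · rw [← h2, zero_mul, zero_mul]
      · have hBpos : 0 < ∑ y ∈ s, Bt y := by
          have h3 : 0 < ∑ y ∈ s, A y := by rw [hsumA]; exact h2
          obtain ⟨y, hy, hy'⟩ := Finset.exists_lt_of_sum_lt (s := s) (f := fun _ => (0 : ℝ)) (g := A)
            (by simpa using h3)
          exact Finset.sum_pos' hBnn ⟨y, hy, hAB y hy hy'⟩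
        apply mul_le_mul_of_nonneg_left _ h2.le
        apply Real.log_le_log (by positivity)
        gcongr
    refine le_trans (le_of_eq ?_) hmain
    rw [hs, Finset.sum_sigma]
    refine Finset.sum_congr rfl fun l hl => ?_
    have hl' : l ≤ M := Nat.lt_succ_iff.1 (Finset.mem_range.1 hl)
    have hCl := hCpos l hl'
    refine Finset.sum_congr rfl fun x _ => ?_
    show _ = q l / C l * d ξ l x * Real.log (t ^ l * g l x * e ξ l x / (q l / C l * d ξ l x))
    rcases eq_or_lt_of_le (hd ξ l x) with h2 | h2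
    · rw [← h2]
      ring
    · rcases eq_or_lt_of_le (hqnn l) with h3 | h3
      · rw [← h3]
        ring
      · have hgx := hgpos l x hl' h2
        have hex := hpd ξ l x h2
        have h4 : t ^ l * g l x * e ξ l x / (q l / C l * d ξ l x) = g l x * (e ξ l x / d ξ l x) * r l := by
          have h5 : t ^ l = q l * r l / C l := by
            rw [hqr]
            field_simp
          rw [h5]
          field_simp
        rw [h4, Real.log_mul (by positivity) (hrpos l).ne', Real.log_mul (by positivity) (by positivity)]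
        ring
  -- step 3
  have hQnn : 0 ≤ ∑ ξ, q0 ξ := Finset.sum_nonneg fun ξ _ => hq0 ξ
  have hsumd : ∀ l, ∑ ξ, ∑ x, d ξ l x = C l * ∑ ξ, q0 ξ := by
    intro l
    rw [Finset.mul_sum]
    exact Finset.sum_congr rfl fun ξ _ => hb ξ l
  have hkey : ∀ l ∈ range (M + 1), C l * (∑ ξ, q0 ξ) * ((N1 + N2 + 1) * Real.log β + k * Real.log (p01 * p2) +
      ((m : ℝ) - k) * Real.log p) ≤ ∑ ξ, ∑ x, (d ξ l x * Real.log (g l x) +
      d ξ l x * Real.log (e ξ l x / d ξ l x) + d ξ l x * Real.log (r l)) := by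
    intro l hl
    have hl' : l ≤ M := Nat.lt_succ_iff.1 (Finset.mem_range.1 hl)
    have hkl : k + l ≤ m := by omega
    have hCl := hCpos l hl'
    have e1 : ∑ ξ, ∑ x, (d ξ l x * Real.log (g l x) +
      d ξ l x * Real.log (e ξ l x / d ξ l x) + d ξ l x * Real.log (r l)) =
      (∑ x, (∑ ξ, d ξ l x) * Real.log (g l x)) + (∑ ξ, ∑ x, d ξ l x * Real.log (e ξ l x / d ξ l x)) +
      (∑ ξ, ∑ x, d ξ l x) * Real.log (r l) := by
      have e2 : ∑ x, (∑ ξ, d ξ l x) * Real.log (g l x) = ∑ ξ, ∑ x, d ξ l x * Real.log (g l x) := by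
        simp_rw [Finset.sum_mul]
        exact Finset.sum_comm
      rw [e2]
      simp_rw [Finset.sum_mul, ← Finset.sum_add_distrib]
    rw [e1]
    have e3 : ∑ x, (∑ ξ, d ξ l x) * Real.log (g l x) =
        c * ((m - l).choose k : ℝ) * ((∑ x, h l x * Real.log (g l x / h l x)) + ∑ x, h l x * Real.log (h l x)) := by
      rw [← Finset.sum_add_distrib, Finset.mul_sum]
      refine Finset.sum_congr rfl fun x _ => ?_
      rw [hcc l x (by omega)]
      rcases eq_or_lt_of_le (hh l x) with h2 | h2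
      · rw [← h2]
        ring
      · rw [Real.log_div (hph l x h2).ne' h2.ne']
        ring
    have hmC : 0 < (m.choose l : ℝ) := by exact_mod_cast Nat.choose_pos (by omega : l ≤ m)
    have e4 : (m.choose l : ℝ) * β * Real.log β ≤ ∑ x, h l x * Real.log (h l x) := by
      have h5 := log_sum (univ : Finset (X l)) (h l) (fun _ => (1 : ℝ)) (fun x _ => hh l x)
        (fun _ _ => zero_le_one) (fun _ _ _ => zero_lt_one)
      have h6 : ∑ _x : X l, (1 : ℝ) = (m.choose l : ℝ) := by
        rw [Finset.sum_const, Finset.card_univ, hX, nsmul_eq_mul, mul_one]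
      rw [hS l (by omega), h6] at h5
      have h7 : ∑ x, h l x * Real.log (1 / h l x) = - ∑ x, h l x * Real.log (h l x) := by
        rw [← Finset.sum_neg_distrib]
        refine Finset.sum_congr rfl fun x _ => ?_
        rw [one_div, Real.log_inv]
        ring
      have h8 : Real.log ((m.choose l : ℝ) / ((m.choose l : ℝ) * β)) = - Real.log β := by
        rw [← Real.log_inv]
        congr 1
        field_simp
      rw [h7, h8] at h5
      linarith
    have e5 := hI2 l (by omega)
    rw [hS l (by omega)] at e5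
    have e6 := hI1 l hkl
    rw [hsumd l] at e6
    have hcc0 : 0 ≤ c * ((m - l).choose k : ℝ) := by positivity
    have e7 : c * ((m - l).choose k : ℝ) * ((m.choose l : ℝ) * β * (N2 * Real.log β + (l : ℝ) * Real.log p02 +
        ((m : ℝ) - l) * Real.log p2) + (m.choose l : ℝ) * β * Real.log β) ≤
        ∑ x, (∑ ξ, d ξ l x) * Real.log (g l x) := by
      rw [e3]
      exact mul_le_mul_of_nonneg_left (add_le_add e5 e4) hcc0
    have hch : ((m - l).choose k : ℝ) * (m.choose l : ℝ) = (m.choose k : ℝ) * C l := by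
      have h9 := Nat.choose_mul (n := m) (k := k + l) (s := k) (by omega)
      have h10 := Nat.choose_mul (n := m) (k := k + l) (s := l) (by omega)
      have h11 : (k + l).choose k = (k + l).choose l := Nat.choose_symm_add
      rw [h11, h10] at h9
      have h12 : k + l - l = k := by omega
      have h13 : k + l - k = l := by omega
      rw [h12, h13] at h9
      simp only [hC]
      have h14 : ((m.choose l * (m - l).choose k : ℕ) : ℝ) = ((m.choose k * (m - k).choose l : ℕ) : ℝ) := by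
        exact_mod_cast h9
      push_cast at h14
      rw [hM]
      linarith
    have e8 : c * ((m - l).choose k : ℝ) * ((m.choose l : ℝ) * β * (N2 * Real.log β + (l : ℝ) * Real.log p02 +
        ((m : ℝ) - l) * Real.log p2) + (m.choose l : ℝ) * β * Real.log β) =
        C l * (∑ ξ, q0 ξ) * (N2 * Real.log β + (l : ℝ) * Real.log p02 +
        ((m : ℝ) - l) * Real.log p2 + Real.log β) := by
      rw [hQ]
      calc _ = c * (((m - l).choose k : ℝ) * (m.choose l : ℝ)) * β * (N2 * Real.log β + (l : ℝ) * Real.log p02 +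
        ((m : ℝ) - l) * Real.log p2 + Real.log β) := by ring
        _ = _ := by rw [hch]; ring
    have hrl : Real.log (r l) = ((m : ℝ) - k) * Real.log p - ((l : ℝ) * (Real.log p01 + Real.log p02) +
        ((m : ℝ) - k - l) * (Real.log p1 + Real.log p2)) := by
      simp only [hr]
      rw [Real.log_div (by positivity) (by positivity), Real.log_pow, Real.log_mul (by positivity) (by positivity),
        Real.log_pow, Real.log_pow, Real.log_mul hp01.ne' hp02.ne', Real.log_mul hp1.ne' hp2.ne', hM,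
        Nat.cast_sub (by omega : l ≤ m - k), Nat.cast_sub hk]
    rw [e8] at e7
    rw [hsumd l, hrl, Real.log_mul hp01.ne' hp2.ne']
    push_cast at e6
    have e9 : C l * (∑ ξ, q0 ξ) * ((N1 + N2 + 1) * Real.log β + k * (Real.log p01 + Real.log p2) +
      ((m : ℝ) - k) * Real.log p) = C l * (∑ ξ, q0 ξ) * (N2 * Real.log β + (l : ℝ) * Real.log p02 +
        ((m : ℝ) - l) * Real.log p2 + Real.log β) + C l * (∑ ξ, q0 ξ) * (N1 * Real.log β + ((k : ℝ) + l) * Real.log p01 +
        ((m : ℝ) - ((k : ℝ) + l)) * Real.log p1) + C l * (∑ ξ, q0 ξ) * (((m : ℝ) - k) * Real.log p - ((l : ℝ) * (Real.log p01 + Real.log p02) +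
        ((m : ℝ) - k - l) * (Real.log p1 + Real.log p2))) := by ring
    rw [e9]
    exact add_le_add (add_le_add e7 e6) le_rfl
  -- conclusion
  set K := (N1 + N2 + 1) * Real.log β + k * Real.log (p01 * p2) + ((m : ℝ) - k) * Real.log p with hK
  calc (∑ ξ, q0 ξ) * K = ∑ l ∈ range (M + 1), q l / C l * (C l * (∑ ξ, q0 ξ) * K) := by
        have h1 : ∀ l ∈ range (M + 1), q l / C l * (C l * (∑ ξ, q0 ξ) * K) = q l * ((∑ ξ, q0 ξ) * K) := by
          intro l hl
          have hCl := hCpos l (Nat.lt_succ_iff.1 (Finset.mem_range.1 hl))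
          field_simp
        rw [Finset.sum_congr rfl h1, ← Finset.sum_mul, hqsum, one_mul]
    _ ≤ ∑ l ∈ range (M + 1), q l / C l * (∑ ξ, ∑ x, (d ξ l x * Real.log (g l x) +
      d ξ l x * Real.log (e ξ l x / d ξ l x) + d ξ l x * Real.log (r l))) := by
        refine Finset.sum_le_sum fun l hl => ?_
        have hCl := hCpos l (Nat.lt_succ_iff.1 (Finset.mem_range.1 hl))
        exact mul_le_mul_of_nonneg_left (hkey l hl) (div_nonneg (hqnn l) hCl.le)
    _ = ∑ ξ, ∑ l ∈ range (M + 1), ∑ x, (q l / C l) * (d ξ l x * Real.log (g l x) +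
      d ξ l x * Real.log (e ξ l x / d ξ l x) + d ξ l x * Real.log (r l)) := by
        rw [Finset.sum_comm]
        refine Finset.sum_congr rfl fun l _ => ?_
        rw [Finset.mul_sum]
        refine Finset.sum_congr rfl fun ξ _ => ?_
        rw [Finset.mul_sum]
    _ ≤ ∑ ξ, q0 ξ * Real.log (qT ξ / q0 ξ) := Finset.sum_le_sum fun ξ _ => step1 ξ

end Pool.Agent.helper96.LSZF
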