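import Pool.Agent.helper96.LSZF.L5
import Pool.Agent.helper96.LSZF.L6

/-!
# Good pieces and the join of two pieces (forest theorem, MP_2dd521_co)
-/

set_option autoImplicit false

open Finset BigOperators
open scoped ComplexOrder
open Pool.Agent.helper16.LSZ

namespace Pool.Agent.helper96.LSZF

section

variable {K : Type} [Fintype K] [DecidableEq K]

/-- real part of a principal subpermanent -/
noncomputable def pr (A : K → K → ℂ) (T : Finset K) : ℝ := (GG A T T).re

theorem GG_diag_nonneg (A : Matrix K K ℂ) (hA : A.PosSemidef) (T : Finset K) : 0 ≤ GG A T T :=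
  (GG_posSemidef A hA).diag_nonneg

theorem pr_nonneg (A : Matrix K K ℂ) (hA : A.PosSemidef) (T : Finset K) : 0 ≤ pr A T :=
  (Complex.nonneg_iff.1 (GG_diag_nonneg A hA T)).1

theorem GG_eq_pr (A : Matrix K K ℂ) (hA : A.PosSemidef) (T : Finset K) : GG A T T = (pr A T : ℂ) := by
  apply Complex.ext
  · rfl
  · rw [Complex.ofReal_im]
    exact (Complex.nonneg_iff.1 (GG_diag_nonneg A hA T)).2.symm

theorem GG_single (M : K → K → ℂ) (x y : K) : GG M {x} {y} = M x y := by
  rw [GG_def]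
  have hx : ∀ a : {a // a ∈ ({x} : Finset K)}, a.1 = x := fun a => Finset.mem_singleton.1 a.2
  have hy : ∀ a : {a // a ∈ ({y} : Finset K)}, a.1 = y := fun a => Finset.mem_singleton.1 a.2
  let e0 : {a // a ∈ ({x} : Finset K)} ≃ {a // a ∈ ({y} : Finset K)} :=
    { toFun := fun _ => ⟨y, Finset.mem_singleton_self y⟩
      invFun := fun _ => ⟨x, Finset.mem_singleton_self x⟩
      left_inv := fun a => Subtype.ext (hx a).symm
      right_inv := fun a => Subtype.ext (hy a).symm }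
  rw [Fintype.sum_eq_single e0]
  · have hs : Subsingleton {a // a ∈ ({x} : Finset K)} := ⟨fun a b => Subtype.ext ((hx a).trans (hx b).symm)⟩
    rw [Fintype.prod_subsingleton _ ⟨x, Finset.mem_singleton_self x⟩]
    rfl
  · intro e he
    exact absurd (Equiv.ext fun a => Subtype.ext ((hy _).trans (hy _).symm)) he

theorem pr_empty (A : K → K → ℂ) : pr A ∅ = 1 := by
  unfold pr
  rw [GG_empty, Complex.one_re]

theorem GG_disj (A : K → K → ℂ) (T1 T2 : Finset K) (hT : Disjoint T1 T2)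
    (h12 : ∀ i ∈ T1, ∀ j ∈ T2, A i j = 0) (h21 : ∀ i ∈ T2, ∀ j ∈ T1, A i j = 0) :
    GG A (T1 ∪ T2) (T1 ∪ T2) = GG A T1 T1 * GG A T2 T2 := by
  rw [two_blocks A T1 T2 T1 T2 ∅ ∅ hT hT (fun x hx y hy _ => h12 x hx y hy) (fun x hx y hy _ => h21 x hx y hy)]
  simp [GG_empty]

theorem GG_join (A : K → K → ℂ) (T1 T2 : Finset K) (v c : K) (hv : v ∈ T1) (hc : c ∈ T2)
    (hT : Disjoint T1 T2) (h12 : ∀ i ∈ T1, ∀ j ∈ T2, ¬ (i = v ∧ j = c) → A i j = 0)
    (h21 : ∀ i ∈ T2, ∀ j ∈ T1, ¬ (i = c ∧ j = v) → A i j = 0) :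
    GG A (T1 ∪ T2) (T1 ∪ T2) = GG A T1 T1 * GG A T2 T2 +
      (A v c * A c v) * (GG A (T1.erase v) (T1.erase v) * GG A (T2.erase c) (T2.erase c)) := by
  rw [two_blocks A T1 T2 T1 T2 {v} {c} hT hT]
  rotate_left
  · intro x hx y hy hn
    apply h12 x hx y hy
    rintro ⟨rfl, rfl⟩
    exact hn ⟨Finset.mem_singleton_self _, Finset.mem_singleton_self _⟩
  · intro x hx y hy hn
    apply h21 x hx y hy
    rintro ⟨rfl, rfl⟩
    exact hn ⟨Finset.mem_singleton_self _, Finset.mem_singleton_self _⟩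
  have e1 : T1 ∩ {v} = {v} := Finset.inter_singleton_of_mem hv
  have e2 : T2 ∩ {c} = {c} := Finset.inter_singleton_of_mem hc
  have hps : ∀ (x : K) (F : Finset K → ℂ), ∑ U ∈ ({x} : Finset K).powerset, F U = F ∅ + F {x} := by
    intro x F
    have : ({x} : Finset K).powerset = {∅, {x}} := by
      ext U
      rw [Finset.mem_powerset, Finset.subset_singleton_iff, Finset.mem_insert, Finset.mem_singleton]
    rw [this, Finset.sum_pair (Finset.singleton_ne_empty x).symm]
  rw [e1, e2, hps]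
  simp_rw [hps]
  have z1 : ∀ x : K, GG A ∅ {x} = 0 := fun x => GG_card A _ _ (by simp)
  have z2 : ∀ x : K, GG A {x} ∅ = 0 := fun x => GG_card A _ _ (by simp)
  have c1 : (T1.erase v).card < T1.card := Finset.card_erase_lt_of_mem hv
  have z3 : GG A (T1.erase v) T1 = 0 := GG_card A _ _ c1.ne
  have z4 : GG A T1 (T1.erase v) = 0 := GG_card A _ _ c1.ne'
  simp only [z1, z2, z3, z4, GG_empty, GG_single, Finset.sdiff_empty, zero_mul, add_zero, zero_add, one_mul, mul_zero,
    Finset.sdiff_singleton_eq_erase]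
  ring

end

section

variable {I J : Type} [Fintype I] [Fintype J] [DecidableEq I] [DecidableEq J]

theorem hf_smul (Z : Finset J → Finset J → ℂ) (a : ℂ) (g : Finset J → ℂ) :
    hf Z (fun S => a * g S) = ((Complex.normSq a : ℝ) : ℂ) * hf Z g := by
  unfold hf
  rw [Finset.mul_sum]
  refine Finset.sum_congr rfl fun S _ => ?_
  rw [Finset.mul_sum]
  refine Finset.sum_congr rfl fun R _ => ?_
  rw [star_mul', ← Complex.mul_conj, Complex.star_def]
  simp only [Complex.star_def]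
  ring

theorem qf_smul (Z : Finset J → Finset J → ℂ) (a : ℂ) (g : Finset J → ℂ) :
    qf Z (fun S => a * g S) = Complex.normSq a * qf Z g := by
  unfold qf
  rw [hf_smul, Complex.re_ofReal_mul]

theorem hom0 (w : Finset J → ℂ) (hw : ∀ S, S.card ≠ 0 → w S = 0) : w = fun S => w ∅ * del S := by
  funext S
  unfold del
  by_cases hS : S = ∅
  · rw [hS, if_pos rfl, mul_one]
  · rw [if_neg hS, mul_zero, hw S fun h => hS (Finset.card_eq_zero.1 h)]

theorem cv_hom0 (f w : Finset J → ℂ) (hw : ∀ S, S.card ≠ 0 → w S = 0) : cv f w = fun S => w ∅ * f S := by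
  funext S
  unfold cv
  rw [Finset.sum_eq_single ∅]
  · rw [Finset.sdiff_empty, mul_comm]
  · intro U _ hU
    rw [hw U fun h => hU (Finset.card_eq_zero.1 h), mul_zero]
  · intro h
    exact absurd (Finset.mem_powerset.2 (Finset.empty_subset S)) h

theorem qf_V0_del (B : J → J → ℂ) : qf (V0 B) del = pr B univ := by
  unfold qf pr
  rw [hf_del]
  unfold V0
  rw [Finset.compl_empty]

/-- the invariant of a rooted piece -/
structure Good (A : I → I → ℂ) (B : J → J → ℂ) (T : Finset I) (v : I) : Prop where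
  mem : v ∈ T
  r1 : GG A T T = (pr A T : ℂ)
  r0 : GG A (T.erase v) (T.erase v) = (pr A (T.erase v) : ℂ)
  p1 : 0 < pr A T
  p0 : 0 < pr A (T.erase v)
  psd : Matrix.PosSemidef (ZT A B T v : Matrix (Finset J) (Finset J) ℂ)
  pos : 0 < pr B univ → ∀ (k : ℕ) (f : Finset J → ℂ), (∀ S, S.card ≠ k → f S = 0) → 0 < qf (V0 B) f →
    0 < qf (ZT A B T v) f
  inv : 0 < pr B univ → ∀ (k : ℕ) (c : ℝ) (Ξ : Type) [Fintype Ξ] (f : Ξ → Finset J → ℂ),
    k ≤ Fintype.card J → 0 ≤ c → Fr B k c f →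
    (∑ ξ, qf (V0 B) (f ξ)) * (((T.card : ℝ) - 1) * Real.log (pr B univ) +
      (k : ℝ) * Real.log (pr A (T.erase v)) + ((Fintype.card J : ℝ) - (k : ℝ)) * Real.log (pr A T)) ≤
      ∑ ξ, qf (V0 B) (f ξ) * Real.log (qf (ZT A B T v) (f ξ) / qf (V0 B) (f ξ))

theorem good_single (A : I → I → ℂ) (B : Matrix J J ℂ) (hB : B.PosSemidef)
    (v : I) (a : ℝ) (ha : A v v = (a : ℂ)) (hv : 0 < a) : Good A B {v} v := by
  have hp : pr A {v} = a := by
    unfold pr
    rw [GG_single, ha, Complex.ofReal_re]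
  have he : ({v} : Finset I).erase v = ∅ := by simp
  refine ⟨Finset.mem_singleton_self v, by rw [GG_single, hp, ha],
    by rw [he, pr_empty, GG_empty, Complex.ofReal_one], by rw [hp]; exact hv,
    by rw [he, pr_empty]; exact one_pos, single_psd A B hB v a hv.le ha, ?_, ?_⟩
  · intro _ k f hf0 hq
    rw [single A B v _ ha f k hf0]
    positivity
  · intro _ k c Ξ _ f hk hc hFr
    rw [Finset.card_singleton, Nat.cast_one, sub_self, zero_mul, he, pr_empty, Real.log_one, mul_zero,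
      zero_add, zero_add, hp, Finset.sum_mul]
    refine Finset.sum_le_sum fun ξ _ => le_of_eq ?_
    rw [single A B v _ ha (f ξ) k (fun S hS => Fr_hom hFr ξ S hS)]
    by_cases h0 : qf (V0 B) (f ξ) = 0
    · rw [h0, zero_mul, zero_mul]
    · rw [mul_div_assoc, div_self h0, mul_one, Real.log_pow, Nat.cast_sub hk]

theorem good_join (A : I → I → ℂ) (B : Matrix J J ℂ) (hB : B.PosSemidef)
    (T1 T2 : Finset I) (v c : I) (g1 : Good A B T1 v) (g2 : Good A B T2 c)
    (t : ℝ) (ht0 : 0 ≤ t) (ht : A v c * A c v = (t : ℂ))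
    (hT : Disjoint T1 T2) (h12 : ∀ i ∈ T1, ∀ j ∈ T2, ¬ (i = v ∧ j = c) → A i j = 0)
    (h21 : ∀ i ∈ T2, ∀ j ∈ T1, ¬ (i = c ∧ j = v) → A i j = 0) : Good A B (T1 ∪ T2) v := by
  have hv := g1.mem
  have hc := g2.mem
  have hTd := Finset.disjoint_left.1 hT
  -- the permanents
  have hGp : GG A (T1 ∪ T2) (T1 ∪ T2) =
      ((pr A T1 * pr A T2 + t * pr A (T1.erase v) * pr A (T2.erase c) : ℝ) : ℂ) := by
    have h1 := GG_join A T1 T2 v c hv hc hT h12 h21
    rw [g1.r1, g2.r1, g1.r0, g2.r0, ht] at h1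
    rw [h1]
    push_cast
    ring
  have hp : pr A (T1 ∪ T2) = pr A T1 * pr A T2 + t * pr A (T1.erase v) * pr A (T2.erase c) := by
    unfold pr at hGp ⊢
    rw [hGp, Complex.ofReal_re]
  have hvc : v ∉ T2 := hTd hv
  have hset : (T1 ∪ T2).erase v = (T1.erase v) ∪ T2 := by
    rw [Finset.erase_union_distrib, Finset.erase_eq_of_notMem hvc]
  have hGp0 : GG A ((T1 ∪ T2).erase v) ((T1 ∪ T2).erase v) = ((pr A (T1.erase v) * pr A T2 : ℝ) : ℂ) := by
    rw [hset]
    have h1 := GG_disj A (T1.erase v) T2 (hT.mono_left (Finset.erase_subset _ _))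
      (fun i hi j hj => h12 i (Finset.mem_of_mem_erase hi) j hj fun h => Finset.ne_of_mem_erase hi h.1)
      (fun i hi j hj => h21 i hi j (Finset.mem_of_mem_erase hj) fun h => Finset.ne_of_mem_erase hj h.2)
    rw [h1, g1.r0, g2.r1]
    push_cast
    ring
  have hp0 : pr A ((T1 ∪ T2).erase v) = pr A (T1.erase v) * pr A T2 := by
    unfold pr at hGp0 ⊢
    rw [hGp0, Complex.ofReal_re]
  have hZ1 := g1.psd
  have hZ2 := g2.psd
  have hV := V0_psd B hB
  choose w hw hm using fun l => eigenframe B hB (ZT A B T2 c) hZ2 l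
  have hmsg := message A B T1 T2 v c hv hc t ht hT h12 h21 w hw hm
  have hq0 : ∀ f, 0 ≤ qf (V0 B) f := fun f => qf_nonneg hV f
  have hq1 : ∀ f, 0 ≤ qf (ZT A B T1 v) f := fun f => qf_nonneg hZ1 f
  have hq2 : ∀ f, 0 ≤ qf (ZT A B T2 c) f := fun f => qf_nonneg hZ2 f
  -- real versions of J3, J5
  have rJ3 : ∀ (l k : ℕ) (f : Finset J → ℂ), (∀ S, S.card ≠ k → f S = 0) →
      ∑ x, qf (V0 B) (cv f (w l x)) = ((Fintype.card J - k).choose l : ℝ) * qf (V0 B) f := by
    intro l k f hf0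
    have h1 := J3 (hw l) f k hf0
    have h2 := congrArg Complex.re h1
    rw [Complex.re_sum] at h2
    unfold qf
    rw [h2]
    have h3 : ((1 : ℝ) : ℂ) * (((Fintype.card J - k).choose l : ℕ) : ℂ) = ((((Fintype.card J - k).choose l : ℕ) : ℝ) : ℂ) := by
      push_cast
      ring
    rw [h3, Complex.re_ofReal_mul]
  refine ⟨Finset.mem_union_left _ hv, by rw [hGp, hp], by rw [hGp0, hp0], ?_, ?_,
    message_psd A B T1 T2 v c hv hc t ht0 ht hT h12 h21 w hw hm hZ1 hZ2, ?_, ?_⟩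
  · rw [hp]
    have := g1.p1
    have := g2.p1
    have := g1.p0
    have := g2.p0
    positivity
  · rw [hp0]
    exact mul_pos g1.p0 g2.p1
  · intro hβ k f hf0 hqf
    rw [hmsg f]
    have h1 := rJ3 0 k f hf0
    rw [Nat.choose_zero_right, Nat.cast_one, one_mul] at h1
    rw [← h1] at hqf
    obtain ⟨x, _, hx⟩ := Finset.exists_lt_of_sum_lt (s := univ) (f := fun _ => (0 : ℝ))
      (g := fun x => qf (V0 B) (cv f (w 0 x))) (by simpa using hqf)
    have hwx : ∀ S, S.card ≠ 0 → w 0 x S = 0 := fun S hS => Fr_hom (hw 0) x S hS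
    have hcv := cv_hom0 f (w 0 x) hwx
    have hne : w 0 x ∅ ≠ 0 := by
      intro h0
      rw [hcv, h0, qf_smul, Complex.normSq_zero, zero_mul] at hx
      exact lt_irrefl _ hx
    have h2 : 0 < qf (V0 B) (w 0 x) := by
      rw [hom0 (w 0 x) hwx, qf_smul, qf_V0_del]
      exact mul_pos (Complex.normSq_pos.2 hne) hβ
    have h3 : 0 < qf (ZT A B T2 c) (w 0 x) := g2.pos hβ 0 _ hwx h2
    have h4 : 0 < qf (ZT A B T1 v) (cv f (w 0 x)) := by
      refine g1.pos hβ k _ ?_ hx
      intro S hS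
      rw [hcv]
      show w 0 x ∅ * f S = 0
      rw [hf0 S hS, mul_zero]
    have hterm : ∀ l (y : {S : Finset J // S.card = l}), 0 ≤ t ^ l * qf (ZT A B T2 c) (w l y) *
        qf (ZT A B T1 v) (cv f (w l y)) := by
      intro l y
      have := hq2 (w l y)
      have := hq1 (cv f (w l y))
      positivity
    refine Finset.sum_pos' (fun l _ => Finset.sum_nonneg fun y _ => hterm l y) ⟨0, by simp, ?_⟩
    refine Finset.sum_pos' (fun y _ => hterm 0 y) ⟨x, mem_univ _, ?_⟩
    rw [pow_zero, one_mul]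
    exact mul_pos h3 h4
  · intro hβ k cc Ξ _ f hk hcc hFr
    have hfk : ∀ ξ S, S.card ≠ k → f ξ S = 0 := fun ξ S hS => Fr_hom hFr ξ S hS
    have rJ5 : ∀ (l : ℕ) (x : {S : Finset J // S.card = l}),
        ∑ ξ, qf (V0 B) (cv (f ξ) (w l x)) = cc * ((Fintype.card J - l).choose k : ℝ) * qf (V0 B) (w l x) := by
      intro l x
      have h1 := J5 hFr (w l x) l (fun S hS => Fr_hom (hw l) x S hS)
      have h2 := congrArg Complex.re h1
      rw [Complex.re_sum] at h2
      unfold qf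
      rw [h2]
      have h3 : (cc : ℂ) * (((Fintype.card J - l).choose k : ℕ) : ℂ) =
          ((cc * (((Fintype.card J - l).choose k : ℕ) : ℝ) : ℝ) : ℂ) := by
        push_cast
        ring
      rw [h3, Complex.re_ofReal_mul]
    have rJ5' : ∑ ξ, qf (V0 B) (f ξ) = cc * ((Fintype.card J).choose k : ℝ) * pr B univ := by
      have h1 := J5' hFr
      have h2 := congrArg Complex.re h1
      rw [Complex.re_sum] at h2
      unfold qf
      rw [h2, GG_eq_pr B hB]
      have h3 : (cc : ℂ) * (((Fintype.card J).choose k : ℕ) : ℂ) * ((pr B univ : ℝ) : ℂ) =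
          ((cc * (((Fintype.card J).choose k : ℕ) : ℝ) * pr B univ : ℝ) : ℂ) := by
        push_cast
        ring
      rw [h3, Complex.ofReal_re]
    have rS : ∀ l, ∑ x, qf (V0 B) (w l x) = ((Fintype.card J).choose l : ℝ) * pr B univ := by
      intro l
      have h1 := J5' (hw l)
      have h2 := congrArg Complex.re h1
      rw [Complex.re_sum] at h2
      unfold qf
      rw [h2, GG_eq_pr B hB]
      have h3 : ((1 : ℝ) : ℂ) * (((Fintype.card J).choose l : ℕ) : ℂ) * ((pr B univ : ℝ) : ℂ) =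
          (((((Fintype.card J).choose l : ℕ) : ℝ) * pr B univ : ℝ) : ℂ) := by
        push_cast
        ring
      rw [h3, Complex.ofReal_re]
    have hFr4 : ∀ l, Fr B (k + l) (cc * 1 * ((k + l).choose l : ℝ))
        (fun p : Ξ × {S : Finset J // S.card = l} => cv (f p.1) (w l p.2)) := fun l => J4 hFr (hw l)
    have hJ := join_real (Fintype.card J) k hk (pr B univ) (pr A T1) (pr A T2) (pr A (T1.erase v))
      (pr A (T2.erase c)) t cc ((T1.card : ℝ) - 1) ((T2.card : ℝ) - 1) hβ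
      g1.p1 g2.p1 g1.p0 g2.p0 ht0 hcc Ξ (fun l => {S : Finset J // S.card = l})
      (fun l => Fintype.card_finset_len l)
      (fun ξ => qf (V0 B) (f ξ)) (fun ξ => qf (ZT A B (T1 ∪ T2) v) (f ξ))
      (fun ξ l x => qf (V0 B) (cv (f ξ) (w l x))) (fun ξ l x => qf (ZT A B T1 v) (cv (f ξ) (w l x)))
      (fun l x => qf (ZT A B T2 c) (w l x)) (fun l x => qf (V0 B) (w l x))
      (fun ξ => hq0 _) (fun ξ l x => hq0 _) (fun ξ l x => hq1 _) (fun l x => hq2 _) (fun l x => hq0 _)
      (fun ξ => le_of_eq (hmsg (f ξ)).symm)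
      (fun ξ l => rJ3 l k (f ξ) (hfk ξ))
      (fun l x _ => rJ5 l x)
      rJ5'
      (fun l _ => rS l)
      (fun l hkl => by
        have h1 := g1.inv hβ (k + l) (cc * 1 * ((k + l).choose l : ℝ)) (Ξ × {S : Finset J // S.card = l})
          (fun p => cv (f p.1) (w l p.2)) hkl (by positivity) (hFr4 l)
        rw [Fintype.sum_prod_type, Fintype.sum_prod_type] at h1
        exact h1)
      (fun l hl => g2.inv hβ l 1 {S : Finset J // S.card = l} (w l) hl zero_le_one (hw l))
      (fun ξ l x h => g1.pos hβ (k + l) _ (fun S hS => Fr_hom (hFr4 l) (ξ, x) S hS) h)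
      (fun l x h => g2.pos hβ l _ (fun S hS => Fr_hom (hw l) x S hS) h)
    rw [hp, hp0]
    have hcard : (((T1 ∪ T2).card : ℝ) - 1) = ((T1.card : ℝ) - 1) + ((T2.card : ℝ) - 1) + 1 := by
      rw [Finset.card_union_of_disjoint hT]
      push_cast
      ring
    rw [hcard]
    exact hJ

end

end Pool.Agent.helper96.LSZF
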